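import Pool.Agent.Helper36.S5.Nu

/-!
# Module S5 of Plan S: the core rigidity theorem (special fixed point at infinity)
-/

set_option autoImplicit false
set_option linter.unusedSectionVars false

open Finset Polynomial

namespace Pool.Agent.Helper36.S5

variable {O κ : Type*} [CommRing O] [IsDomain O] [Field κ]

/-- Two orbits (for `A/B` and `A₂/B₂`) with the same reduction; all points finite. -/
structure Pair (π : O →+* κ) (d : ℕ) (A B A₂ B₂ : O[X]) (x y : ℕ → O) (n : ℕ) : Prop where
  hA : A.natDegree ≤ d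
  hB : B.natDegree ≤ d
  hA₂ : A₂.natDegree ≤ d
  hB₂ : B₂.natDegree ≤ d
  rA : A₂.map π = A.map π
  rB : B₂.map π = B.map π
  sx : ∀ j, j < n → x (j + 1) * B.eval (x j) = A.eval (x j)
  sy : ∀ j, j < n → y (j + 1) * B₂.eval (y j) = A₂.eval (y j)
  inj : ∀ i j, i ≤ n → j ≤ n → π (x i) = π (x j) → i = j
  red : ∀ j, j ≤ n → π (y j) = π (x j)

variable {π : O →+* κ} {τ : O} {d : ℕ} {A B A₂ B₂ : O[X]} {x y : ℕ → O} {n : ℕ}

lemma Pair.stepx (P : Pair π d A B A₂ B₂ x y n) (j : ℕ) (hj : j < n) :
    π (x (j + 1)) * (B.map π).eval (π (x j)) = (A.map π).eval (π (x j)) := by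
  rw [eval_map_apply, eval_map_apply, ← map_mul, P.sx j hj]

lemma Pair.B_ne (P : Pair π d A B A₂ B₂ x y n) (hco : IsCoprime (A.map π) (B.map π)) (j : ℕ)
    (hj : j < n) : (B.map π).eval (π (x j)) ≠ 0 := by
  intro h0
  have h1 := P.stepx j hj
  rw [h0, mul_zero] at h1
  exact eval_ne_of_coprime hco h1.symm h0

/-- the linearised recursion at level `ν` -/
theorem Pair.linear (P : Pair π d A B A₂ B₂ x y n) (L : Loc π τ)
    (hco : IsCoprime (A.map π) (B.map π)) (ν : ℕ) (hν : 1 ≤ ν) (b : ℕ) (hb : b + 2 * d < n)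
    (u : ℕ → O) (hu : ∀ j, b ≤ j → j ≤ n → y j = x j + τ ^ ν * u j) :
    ∃ E : κ[X], E.natDegree ≤ 2 * d ∧ ∀ j, b ≤ j → j < n →
      π (u (j + 1)) * (B.map π).eval (π (x j)) ^ 2 =
        (wr (A.map π) (B.map π)).eval (π (x j)) * π (u j) + E.eval (π (x j)) := by
  classical
  set Δ : O[X] := A₂ * B - A * B₂ with hΔ
  have hΔd : Δ.natDegree ≤ 2 * d := by
    rw [hΔ]
    refine (natDegree_sub_le _ _).trans (max_le ?_ ?_)
    · exact (natDegree_mul_le_of_le P.hA₂ P.hB).trans (by omega)
    · exact (natDegree_mul_le_of_le P.hA P.hB₂).trans (by omega)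
  -- the local expansion
  have key : ∀ j, b ≤ j → j < n → ∃ k : O,
      Δ.eval (y j) * B.eval (x j) = τ ^ ν * (B₂.eval (y j) * (u (j + 1) * B.eval (y j) *
        B.eval (x j) - u j * ((derivative A).eval (x j) * B.eval (x j) -
          A.eval (x j) * (derivative B).eval (x j) + τ ^ ν * k))) := by
    intro j hj hj'
    obtain ⟨kA, hkA⟩ := A.binomExpansion (x j) (τ ^ ν * u j)
    obtain ⟨kB, hkB⟩ := B.binomExpansion (x j) (τ ^ ν * u j)
    rw [← hu j hj hj'.le] at hkA hkB
    have h1 := P.sx j hj'
    have h2 := P.sy j hj'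
    rw [hu (j + 1) (by omega) (by omega)] at h2
    refine ⟨u j * (kA * B.eval (x j) - A.eval (x j) * kB), ?_⟩
    rw [hΔ, eval_sub, eval_mul, eval_mul, ← h2]
    have h3 : A.eval (x j) * B.eval (y j) - A.eval (y j) * B.eval (x j) =
        -(τ ^ ν * u j * ((derivative A).eval (x j) * B.eval (x j) -
          A.eval (x j) * (derivative B).eval (x j) +
          τ ^ ν * (u j * (kA * B.eval (x j) - A.eval (x j) * kB)))) := by
      rw [hkA, hkB]; ring
    linear_combination (B₂.eval (y j)) * h3 + (B₂.eval (y j) * B.eval (y j)) * h1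
  -- divisibility of `Δ`
  have hdiv : C (τ ^ ν) ∣ Δ := by
    apply L.dvd_of_eval ν Δ (2 * d) hΔd (Finset.Ico b n) y
    · intro i hi j hj hij
      rw [Finset.mem_coe, Finset.mem_Ico] at hi hj
      have hij' : π (y i) = π (y j) := hij
      rw [P.red i (by omega), P.red j (by omega)] at hij'
      exact P.inj i j (by omega) (by omega) hij'
    · rw [Nat.card_Ico]; omega
    · intro j hj
      rw [Finset.mem_Ico] at hj
      obtain ⟨k, hk⟩ := key j hj.1 hj.2
      apply L.cancel (Δ.eval (y j)) (B.eval (x j))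
      · have := P.B_ne hco j hj.2
        rwa [eval_map_apply] at this
      · exact ⟨_, hk⟩
  obtain ⟨E, hE⟩ := hdiv
  have hτν : τ ^ ν ≠ 0 := pow_ne_zero ν L.ne
  have hπτ : π τ = 0 := (L.ker τ).mpr dvd_rfl
  refine ⟨E.map π, ?_, ?_⟩
  · rw [hE, natDegree_C_mul hτν] at hΔd
    exact natDegree_map_le.trans hΔd
  · intro j hj hj'
    obtain ⟨k, hk⟩ := key j hj hj'
    rw [hE, eval_mul, eval_C, mul_assoc] at hk
    have h1 := congrArg π (mul_left_cancel₀ hτν hk)
    have hB := P.B_ne hco j hj'
    have eB₂ : π (B₂.eval (y j)) = (B.map π).eval (π (x j)) := by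
      rw [← P.red j hj'.le, ← P.rB, eval_map_apply]
    have eB : π (B.eval (y j)) = (B.map π).eval (π (x j)) := by
      rw [← P.red j hj'.le, eval_map_apply]
    have eE : π (E.eval (y j)) = (E.map π).eval (π (x j)) := by
      rw [← P.red j hj'.le, eval_map_apply]
    have eW : (wr (A.map π) (B.map π)).eval (π (x j)) =
        π ((derivative A).eval (x j)) * π (B.eval (x j)) -
          π (A.eval (x j)) * π ((derivative B).eval (x j)) := by
      rw [wr, eval_sub, eval_mul, eval_mul, derivative_map, derivative_map, eval_map_apply,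
        eval_map_apply, eval_map_apply, eval_map_apply]
    simp only [map_mul, map_sub, map_add, map_pow, hπτ] at h1
    rw [zero_pow (by omega), zero_mul, add_zero, ← eW, eB₂, eB, eE,
      ← eval_map_apply (f := π) (p := B)] at h1
    apply mul_left_cancel₀ hB
    linear_combination -h1

/-- constant -/
def CC (d m D : ℕ) : ℕ := 2 * d * TT d m (D + m)

/-- **The core rigidity theorem** (`∞` is a special fixed point of the reduction) -/
theorem core [IsAlgClosed κ] [CharZero κ] (P : Pair π d A B A₂ B₂ x y n) (L : Loc π τ)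
    (h : Rat (A.map π) (B.map π) d) (hd : 2 ≤ d)
    (m D n₁ : ℕ) (hn₁ : CC d m D + TT d m (D + m) + 2 * d + 1 ≤ n₁) (hn₁n : n₁ ≤ n)
    (Q : O[X][X]) (hQ0 : Q ≠ 0) (hQm : Q.natDegree ≤ m) (hQD : XDeg Q D)
    (hQv : ∀ j, j ≤ n₁ → evalEval (x j) (y j) Q = 0)
    (j₁ j₂ j₃ : ℕ) (hj₁ : CC d m D + TT d m (D + m) ≤ j₁) (hj₂ : CC d m D + TT d m (D + m) ≤ j₂)
    (hj₃ : CC d m D + TT d m (D + m) ≤ j₃) (hj₁n : j₁ ≤ n) (hj₂n : j₂ ≤ n) (hj₃n : j₃ ≤ n)
    (h12 : j₁ ≠ j₂) (h13 : j₁ ≠ j₃) (h23 : j₂ ≠ j₃)
    (e1 : y j₁ = x j₁) (e2 : y j₂ = x j₂) (e3 : y j₃ = x j₃) :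
    ∀ j, CC d m D ≤ j → j ≤ n → y j = x j := by
  classical
  set T := TT d m (D + m) with hT
  set W := wr (A.map π) (B.map π) with hW
  have hW0 : W ≠ 0 := h.W0 (by omega)
  have hWd : W.natDegree ≤ 2 * d := h.natDegree_wr
  have hCC : CC d m D = 2 * d * T := rfl
  rw [hCC] at hn₁ hj₁ hj₂ hj₃ ⊢
  set cnt : ℕ → ℕ := fun c => ((range c).filter fun j => W.eval (π (x j)) = 0).card with hcnt
  have hcnt_le : ∀ c, c ≤ n → cnt c ≤ 2 * d := by
    intro c hc
    have h4 : cnt c ≤ W.roots.toFinset.card := by
      rw [hcnt]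
      have h5 : ((range c).filter fun j => W.eval (π (x j)) = 0).image (fun j => π (x j)) ⊆
          W.roots.toFinset := by
        intro z hz
        obtain ⟨j, hj, rfl⟩ := mem_image.mp hz
        rw [Multiset.mem_toFinset]
        exact (mem_roots hW0).mpr (mem_filter.mp hj).2
      refine le_trans (le_of_eq ?_) (card_le_card h5)
      rw [card_image_of_injOn]
      intro i hi j hj hij
      rw [Finset.mem_coe, mem_filter, mem_range] at hi hj
      exact P.inj i j (by omega) (by omega) hij
    refine h4.trans ((Multiset.toFinset_card_le _).trans ((card_roots' W).trans hWd))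
  have main : ∀ ν : ℕ, ∃ c, c ≤ T * cnt c ∧ c ≤ 2 * d * T ∧
      ∀ j, c ≤ j → j ≤ n → τ ^ (ν + 1) ∣ y j - x j := by
    intro ν
    induction ν with
    | zero =>
      refine ⟨0, by simp, by omega, fun j _ hj => ?_⟩
      rw [zero_add, pow_one, ← L.ker, map_sub, P.red j hj, sub_self]
    | succ ν ih =>
      obtain ⟨c, hc1, hc2, hc3⟩ := ih
      have hchoice : ∀ j, ∃ u : O, c ≤ j → j ≤ n → y j = x j + τ ^ (ν + 1) * u := by
        intro j
        by_cases hj : c ≤ j ∧ j ≤ n
        · obtain ⟨u, hu⟩ := hc3 j hj.1 hj.2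
          exact ⟨u, fun _ _ => by rw [← hu]; ring⟩
        · exact ⟨0, fun ha hb => absurd ⟨ha, hb⟩ hj⟩
      choose u hu using hchoice
      obtain ⟨E, hE, hrec⟩ := P.linear L h.cop (ν + 1) (by omega) c (by omega) u hu
      have hτν : τ ^ (ν + 1) ≠ 0 := pow_ne_zero _ L.ne
      obtain ⟨t, Ps, hPs, hPs0⟩ := L.exists_leading (shift (τ ^ (ν + 1)) Q)
        (shift_ne_zero _ hτν Q hQ0)
      have hτt : τ ^ t ≠ 0 := pow_ne_zero _ L.ne
      have hCt : (C (τ ^ t) : O[X]) ≠ 0 := by rw [Ne, C_eq_zero]; exact hτt
      have hPsm : Ps.natDegree ≤ m := by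
        have := (shift_natDegree (τ ^ (ν + 1)) Q).trans hQm
        rwa [hPs, natDegree_C_mul hCt] at this
      have hPsD : XDeg Ps (D + m) := by
        have h4 := shift_XDeg (τ ^ (ν + 1)) Q hQm hQD
        intro i
        have h5 := h4 i
        rwa [hPs, coeff_C_mul, natDegree_C_mul hτt] at h5
      have hPsv : ∀ j, c ≤ j → j ≤ n₁ → evalEval (x j) (u j) Ps = 0 := by
        intro j hj hj'
        have h4 := shift_eval (τ ^ (ν + 1)) Q (x j) (u j)
        rw [← hu j hj (by omega), hQv j hj', hPs, evalEval_mul, evalEval_C, eval_C] at h4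
        exact (mul_eq_zero.mp h4).resolve_left hτt
      obtain ⟨p, hp1, hp2, hp3⟩ := descent h hd E hE (fun j => π (x j)) (fun j => π (u j)) n P.inj
        P.stepx c hrec m (D + m) n₁ (Ps.map (mapRingHom π)) hPs0
        (natDegree_map_le.trans hPsm)
        (fun i => by rw [coeff_map, coe_mapRingHom]; exact natDegree_map_le.trans (hPsD i))
        (by
          intro j hj hj'
          rw [map_mapRingHom_evalEval, hPsv j hj hj', map_zero]) hn₁n (by omega)
      have hz : ∀ j, c ≤ j → j ≤ n → y j = x j → π (u j) = 0 := by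
        intro j hj hj' he
        have h4 := hu j hj hj'
        rw [he] at h4
        have h5 : τ ^ (ν + 1) * u j = 0 := by linear_combination -h4
        rw [(mul_eq_zero.mp h5).resolve_left hτν, map_zero]
      have hp0 : p = 0 := by
        apply Polynomial.eq_zero_of_natDegree_lt_card_of_eval_eq_zero' p
          (({j₁, j₂, j₃} : Finset ℕ).image fun j => π (x j))
        · intro z hz'
          obtain ⟨j, hj, rfl⟩ := mem_image.mp hz'
          have hj' : j = j₁ ∨ j = j₂ ∨ j = j₃ := by
            simpa using hj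
          rcases hj' with rfl | rfl | rfl
          · rw [← hp3 _ (by omega) (by omega)]
            exact hz _ (by omega) (by omega) e1
          · rw [← hp3 _ (by omega) (by omega)]
            exact hz _ (by omega) (by omega) e2
          · rw [← hp3 _ (by omega) (by omega)]
            exact hz _ (by omega) (by omega) e3
        · rw [card_image_of_injOn]
          · have : ({j₁, j₂, j₃} : Finset ℕ).card = 3 := by
              rw [card_eq_three]
              exact ⟨j₁, j₂, j₃, h12, h13, h23, rfl⟩
            rw [this]; omega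
          · intro i hi j hj hij
            have hi' : i = j₁ ∨ i = j₂ ∨ i = j₃ := by simpa using hi
            have hj' : j = j₁ ∨ j = j₂ ∨ j = j₃ := by simpa using hj
            exact P.inj i j (by omega) (by omega) hij
      have hE0 : E = 0 := by
        rw [hp0, mul_zero, zero_add] at hp2
        rw [← hp2, hsub]; simp
      have hu0 : ∀ j, c + T ≤ j → j ≤ n → π (u j) = 0 := by
        intro j hj hj'
        rw [hp3 j hj hj', hp0, eval_zero]
      -- the least index from which `u` vanishes
      obtain ⟨c', hc'1, hc'2, hc'3, hc'4⟩ : ∃ c', c ≤ c' ∧ c' ≤ c + T ∧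
          (∀ j, c' ≤ j → j ≤ n → π (u j) = 0) ∧ (c < c' → π (u (c' - 1)) ≠ 0) := by
        have hex : ∃ c', c ≤ c' ∧ ∀ j, c' ≤ j → j ≤ n → π (u j) = 0 := ⟨c + T, by omega, hu0⟩
        refine ⟨Nat.find hex, (Nat.find_spec hex).1, Nat.find_min' hex ⟨by omega, hu0⟩,
          (Nat.find_spec hex).2, fun hlt hzero => ?_⟩
        have hmin := Nat.find_min hex (m := Nat.find hex - 1) (by omega)
        apply hmin
        refine ⟨by omega, fun j hj hj' => ?_⟩
        rcases hj.lt_or_eq with h5 | h5
        · exact (Nat.find_spec hex).2 j (by omega) hj'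
        · rw [← h5]; exact hzero
      refine ⟨c', ?_, ?_, ?_⟩
      · rcases hc'1.lt_or_eq with hlt | heq
        · have hcrit : W.eval (π (x (c' - 1))) = 0 := by
            have h4 := hrec (c' - 1) (by omega) (by omega)
            rw [hE0, eval_zero, add_zero, show c' - 1 + 1 = c' by omega,
              hc'3 c' le_rfl (by omega), zero_mul] at h4
            exact (mul_eq_zero.mp h4.symm).resolve_right (hc'4 hlt)
          have h5 : cnt c + 1 ≤ cnt c' := by
            rw [hcnt]
            have h6 : insert (c' - 1) ((range c).filter fun j => W.eval (π (x j)) = 0) ⊆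
                (range c').filter fun j => W.eval (π (x j)) = 0 := by
              intro j hj
              rw [mem_insert] at hj
              rcases hj with rfl | hj
              · rw [mem_filter, mem_range]; exact ⟨by omega, hcrit⟩
              · rw [mem_filter, mem_range] at hj ⊢
                exact ⟨by omega, hj.2⟩
            have h7 := card_le_card h6
            rw [card_insert_of_notMem (by
              rw [mem_filter, mem_range]; rintro ⟨h8, _⟩; omega)] at h7
            exact h7
          calc c' ≤ c + T := hc'2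
            _ ≤ T * cnt c + T := by omega
            _ = T * (cnt c + 1) := by ring
            _ ≤ T * cnt c' := Nat.mul_le_mul_left _ h5
        · rw [← heq]; exact hc1
      · have h4 : c' ≤ T * cnt c' := by
          rcases hc'1.lt_or_eq with hlt | heq
          · have hcrit : W.eval (π (x (c' - 1))) = 0 := by
              have h4 := hrec (c' - 1) (by omega) (by omega)
              rw [hE0, eval_zero, add_zero, show c' - 1 + 1 = c' by omega,
                hc'3 c' le_rfl (by omega), zero_mul] at h4
              exact (mul_eq_zero.mp h4.symm).resolve_right (hc'4 hlt)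
            have h5 : cnt c + 1 ≤ cnt c' := by
              rw [hcnt]
              have h6 : insert (c' - 1) ((range c).filter fun j => W.eval (π (x j)) = 0) ⊆
                  (range c').filter fun j => W.eval (π (x j)) = 0 := by
                intro j hj
                rw [mem_insert] at hj
                rcases hj with rfl | hj
                · rw [mem_filter, mem_range]; exact ⟨by omega, hcrit⟩
                · rw [mem_filter, mem_range] at hj ⊢
                  exact ⟨by omega, hj.2⟩
              have h7 := card_le_card h6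
              rw [card_insert_of_notMem (by
                rw [mem_filter, mem_range]; rintro ⟨h8, _⟩; omega)] at h7
              exact h7
            calc c' ≤ c + T := hc'2
              _ ≤ T * cnt c + T := by omega
              _ = T * (cnt c + 1) := by ring
              _ ≤ T * cnt c' := Nat.mul_le_mul_left _ h5
          · rw [← heq]; exact hc1
        have h5 := hcnt_le c' (by omega)
        calc c' ≤ T * cnt c' := h4
          _ ≤ T * (2 * d) := Nat.mul_le_mul_left _ h5
          _ = 2 * d * T := by ring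
      · intro j hj hj'
        have h4 := hc'3 j hj hj'
        obtain ⟨w, hw⟩ := (L.ker _).mp h4
        rw [hu j (by omega) hj', hw]
        exact ⟨w, by ring⟩
  intro j hj hj'
  rw [← sub_eq_zero]
  apply L.sep
  intro ν
  obtain ⟨c, _, hc2, hc3⟩ := main ν
  exact (pow_dvd_pow τ (Nat.le_succ ν)).trans (hc3 j (by omega) hj')

end Pool.Agent.Helper36.S5
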