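import Pool.Agent.Helper36.S5.Descent

/-!
# Module S5 of Plan S: the `ν`-induction over a local ring
-/

set_option autoImplicit false
set_option linter.unusedSectionVars false

open Finset Polynomial

namespace Pool.Agent.Helper36.S5

variable {O κ : Type*} [CommRing O] [IsDomain O] [Field κ]

/-- `O` is a discrete valuation ring with uniformizer `τ` and residue map `π` -/
structure Loc (π : O →+* κ) (τ : O) : Prop where
  ne : τ ≠ 0
  ker : ∀ x, π x = 0 ↔ τ ∣ x
  sep : ∀ x : O, (∀ ν : ℕ, τ ^ ν ∣ x) → x = 0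

namespace Loc

variable {π : O →+* κ} {τ : O} (L : Loc π τ)
include L

lemma cancel (a b : O) (hb : π b ≠ 0) (ν : ℕ) (h : τ ^ ν ∣ a * b) : τ ^ ν ∣ a := by
  induction ν generalizing a with
  | zero => simp
  | succ ν ih =>
    have h1 : π (a * b) = 0 := (L.ker _).mpr ((dvd_pow_self τ (Nat.succ_ne_zero ν)).trans h)
    rw [map_mul] at h1
    have h2 : τ ∣ a := (L.ker a).mp ((mul_eq_zero.mp h1).resolve_right hb)
    obtain ⟨a', rfl⟩ := h2
    rw [pow_succ'] at h ⊢
    rw [mul_assoc] at h
    exact mul_dvd_mul_left τ (ih a' ((mul_dvd_mul_iff_left L.ne).mp h))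

lemma map_eq_zero (p : O[X]) : p.map π = 0 ↔ C τ ∣ p := by
  rw [C_dvd_iff_dvd_coeff, Polynomial.ext_iff]
  simp only [coeff_map, coeff_zero, L.ker]

lemma map_map_eq_zero (p : O[X][X]) : p.map (mapRingHom π) = 0 ↔ C (C τ) ∣ p := by
  rw [C_dvd_iff_dvd_coeff, Polynomial.ext_iff]
  simp only [coeff_map, coeff_zero, coe_mapRingHom, L.map_eq_zero]

lemma dvd_of_eval (ν : ℕ) : ∀ (p : O[X]) (N : ℕ), p.natDegree ≤ N → ∀ (s : Finset ℕ)
    (y : ℕ → O), Set.InjOn (fun j => π (y j)) s → N < s.card →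
    (∀ j ∈ s, τ ^ ν ∣ p.eval (y j)) → C (τ ^ ν) ∣ p := by
  classical
  induction ν with
  | zero => intro p N _ s y _ _ _; simp
  | succ ν ih =>
    intro p N hN s y hinj hs hd
    have h1 : p.map π = 0 := by
      apply Polynomial.eq_zero_of_natDegree_lt_card_of_eval_eq_zero' (p.map π)
        (s.image fun j => π (y j))
      · intro z hz
        obtain ⟨j, hj, rfl⟩ := mem_image.mp hz
        rw [eval_map_apply]
        exact (L.ker _).mpr ((dvd_pow_self τ (Nat.succ_ne_zero ν)).trans (hd j hj))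
      · rw [card_image_of_injOn hinj]
        exact (natDegree_map_le.trans hN).trans_lt hs
    obtain ⟨q, rfl⟩ := (L.map_eq_zero p).mp h1
    have h2 : C (τ ^ ν) ∣ q := by
      apply ih q N ?_ s y hinj hs
      · intro j hj
        have := hd j hj
        rw [eval_mul, eval_C, pow_succ'] at this
        exact (mul_dvd_mul_iff_left L.ne).mp this
      · rwa [natDegree_C_mul L.ne] at hN
    rw [pow_succ', C_mul]
    exact mul_dvd_mul_left _ h2

lemma exists_leading (P : O[X][X]) (hP : P ≠ 0) : ∃ (t : ℕ) (Ps : O[X][X]),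
    P = C (C (τ ^ t)) * Ps ∧ Ps.map (mapRingHom π) ≠ 0 := by
  have h1 : ∃ i j, (P.coeff i).coeff j ≠ 0 := by
    by_contra hcon
    push Not at hcon
    apply hP
    ext i j
    simp [hcon i j]
  obtain ⟨i, j, hij⟩ := h1
  obtain ⟨N, hN⟩ : ∃ N : ℕ, ¬ τ ^ N ∣ (P.coeff i).coeff j := by
    by_contra hcon
    push Not at hcon
    exact hij (L.sep _ hcon)
  clear hij hP
  induction N generalizing P with
  | zero => simp at hN
  | succ N ih =>
    by_cases hm : P.map (mapRingHom π) = 0
    · obtain ⟨P₁, rfl⟩ := (L.map_map_eq_zero P).mp hm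
      obtain ⟨t, Ps, h1, h2⟩ := ih P₁ (by
        intro h
        apply hN
        rw [coeff_C_mul, coeff_C_mul, pow_succ']
        exact mul_dvd_mul_left τ h)
      refine ⟨t + 1, Ps, ?_, h2⟩
      rw [h1, pow_succ', C_mul, C_mul]; ring
    · exact ⟨0, P, by simp, hm⟩

end Loc

lemma eval_eval (P : O[X][X]) (r : O[X]) (x : O) :
    eval x (eval r P) = evalEval x (eval x r) P := by
  rw [evalEval, ← coe_evalRingHom x, ← eval₂_at_apply, ← eval₂_at_apply]
  congr 1
  simp

/-- the shift `P(X, X + cY)` -/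
noncomputable def shift (c : O) (P : O[X][X]) : O[X][X] := P.comp (C X + C (C c) * X)

lemma shift_eval (c : O) (P : O[X][X]) (x u : O) :
    evalEval x u (shift c P) = evalEval x (x + c * u) P := by
  rw [shift, evalEval, eval_comp, eval_eval]
  simp

lemma shift_ne_zero (c : O) (hc : c ≠ 0) (P : O[X][X]) (hP : P ≠ 0) : shift c P ≠ 0 := by
  intro h
  rw [shift, comp_eq_zero_iff] at h
  rcases h with h | ⟨_, h⟩
  · exact hP h
  · have := congrArg (fun q => q.coeff 1) h
    simp [coeff_X, coeff_C] at this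
    exact hc this

lemma shift_natDegree (c : O) (P : O[X][X]) : (shift c P).natDegree ≤ P.natDegree := by
  rw [shift, natDegree_comp]
  have : (C X + C (C c) * X : O[X][X]).natDegree ≤ 1 := by
    refine natDegree_add_le_of_degree_le ?_ ?_
    · simp
    · exact (natDegree_C_mul_le _ _).trans natDegree_X_le
  calc P.natDegree * _ ≤ P.natDegree * 1 := Nat.mul_le_mul_left _ this
    _ = _ := mul_one _

lemma shift_XDeg (c : O) (P : O[X][X]) {m D : ℕ} (hP : P.natDegree ≤ m) (hD : XDeg P D) :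
    XDeg (shift c P) (D + m) := by
  rw [shift, comp, eval₂_eq_sum_range' C (lt_of_le_of_lt hP (Nat.lt_succ_self m))]
  apply XDeg.sum
  intro i hi
  have hi' : i ≤ m := Nat.lt_succ_iff.mp (mem_range.mp hi)
  have h1 : XDeg (C X + C (C c) * X : O[X][X]) 1 := by
    refine XDeg.add (XDeg.of_C natDegree_X_le) ?_
    have := (XDeg.of_C (p := (C c : O[X])) (D := 1) (by simp)).mul (XDeg.of_X (R := O) 0)
    rwa [add_zero] at this
  refine ((XDeg.of_C (hD i)).mul (h1.pow i)).mono ?_
  omega

end Pool.Agent.Helper36.S5
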