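import Pool.Agent.Helper36.S5.Fixed

/-!
# Module S5 of Plan S: the descent over the residue field
-/

set_option autoImplicit false

open Finset Polynomial

namespace Pool.Agent.Helper36.S5

section XDeg

variable {R : Type*} [CommRing R]

/-- all coefficients have degree at most `D` -/
def XDeg (Q : R[X][X]) (D : ℕ) : Prop := ∀ i, (Q.coeff i).natDegree ≤ D

namespace XDeg

lemma mono {Q : R[X][X]} {D D' : ℕ} (h : XDeg Q D) (hD : D ≤ D') : XDeg Q D' :=
  fun i => (h i).trans hD

lemma zero (D : ℕ) : XDeg (0 : R[X][X]) D := fun i => by simp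

lemma add {P Q : R[X][X]} {D : ℕ} (hP : XDeg P D) (hQ : XDeg Q D) : XDeg (P + Q) D :=
  fun i => by rw [coeff_add]; exact natDegree_add_le_of_degree_le (hP i) (hQ i)

lemma neg {P : R[X][X]} {D : ℕ} (hP : XDeg P D) : XDeg (-P) D :=
  fun i => by rw [coeff_neg, natDegree_neg]; exact hP i

lemma sub {P Q : R[X][X]} {D : ℕ} (hP : XDeg P D) (hQ : XDeg Q D) : XDeg (P - Q) D := by
  rw [sub_eq_add_neg]; exact hP.add hQ.neg

lemma mul {P Q : R[X][X]} {D D' : ℕ} (hP : XDeg P D) (hQ : XDeg Q D') :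
    XDeg (P * Q) (D + D') := fun i => by
  rw [coeff_mul]
  exact natDegree_sum_le_of_forall_le _ _ fun j _ =>
    natDegree_mul_le_of_le (hP j.1) (hQ j.2)

lemma of_C {p : R[X]} {D : ℕ} (hp : p.natDegree ≤ D) : XDeg (C p) D := fun i => by
  rw [coeff_C]
  split_ifs
  · exact hp
  · simp

lemma of_X (D : ℕ) : XDeg (X : R[X][X]) D := fun i => by
  rw [coeff_X]
  split_ifs
  · simp
  · simp

lemma pow {P : R[X][X]} {D : ℕ} (hP : XDeg P D) (k : ℕ) : XDeg (P ^ k) (k * D) := by
  induction k with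
  | zero => rw [pow_zero, zero_mul, ← C_1]; exact of_C (by simp)
  | succ k ih =>
    rw [pow_succ]
    have := ih.mul hP
    rwa [← Nat.succ_mul] at this

lemma sum {ι : Type*} (s : Finset ι) {P : ι → R[X][X]} {D : ℕ}
    (h : ∀ i ∈ s, XDeg (P i) D) : XDeg (∑ i ∈ s, P i) D := by
  classical
  induction s using Finset.induction_on with
  | empty => exact zero D
  | insert a s ha ih =>
    rw [sum_insert ha]
    exact (h a (mem_insert_self a s)).add (ih fun i hi => h i (mem_insert_of_mem hi))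

end XDeg

end XDeg

variable {κ : Type*} [Field κ]

lemma natDegree_hsub_le (A B : κ[X]) {d : ℕ} (hA : A.natDegree ≤ d) (hB : B.natDegree ≤ d)
    (n : ℕ) (q : κ[X]) : (hsub A B n q).natDegree ≤ n * d := by
  refine natDegree_sum_le_of_forall_le _ _ fun i hi => ?_
  have hi' : i ≤ n := Nat.lt_succ_iff.mp (mem_range.mp hi)
  refine (natDegree_C_mul_le _ _).trans ?_
  refine (natDegree_mul_le_of_le (natDegree_pow_le_of_le i hA)
    (natDegree_pow_le_of_le (n - i) hB)).trans ?_
  rw [← add_mul]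
  exact Nat.mul_le_mul_right _ (by omega)

/-- the transform of `Q` -/
noncomputable def trf (A B E : κ[X]) (D e : ℕ) (Q : κ[X][X]) : κ[X][X] :=
  ∑ i ∈ range (e + 1), C (hsub A B D (Q.coeff i)) * ((C (wr A B) * X + C E) ^ i *
    C (B ^ (2 * (e - i))))

lemma trf_eval (A B E : κ[X]) (D e : ℕ) (Q : κ[X][X]) (hQ : Q.natDegree ≤ e)
    (hD : XDeg Q D) (x y u w : κ) (h : y * B.eval x = A.eval x)
    (hw : w * B.eval x ^ 2 = (wr A B).eval x * u + E.eval x) :
    evalEval x u (trf A B E D e Q) = B.eval x ^ (D + 2 * e) * evalEval y w Q := by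
  rw [trf, evalEval, eval_finsetSum, eval_finsetSum, evalEval,
    eval_eq_sum_range' (lt_of_le_of_lt hQ (Nat.lt_succ_self _)), eval_finsetSum, mul_sum]
  refine sum_congr rfl fun i hi => ?_
  have hi' : i ≤ e := Nat.lt_succ_iff.mp (mem_range.mp hi)
  simp only [eval_mul, eval_pow, eval_add, eval_C, eval_X]
  rw [hsub_eval A B D _ (hD i) x y h, ← hw, mul_pow, ← pow_mul]
  have : eval x B ^ (D + 2 * e) = eval x B ^ D * eval x B ^ (2 * i) *
      eval x B ^ (2 * (e - i)) := by
    rw [← pow_add, ← pow_add]; congr 1; omega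
  rw [this]; ring

lemma trf_XDeg (A B E : κ[X]) {d : ℕ} (hA : A.natDegree ≤ d) (hB : B.natDegree ≤ d)
    (hW : (wr A B).natDegree ≤ 2 * d) (hE : E.natDegree ≤ 2 * d) (D e : ℕ) (Q : κ[X][X]) :
    XDeg (trf A B E D e Q) (D * d + 2 * d * e) := by
  apply XDeg.sum
  intro i hi
  have hi' : i ≤ e := Nat.lt_succ_iff.mp (mem_range.mp hi)
  have h1 : XDeg (C (wr A B) * X + C E) (2 * d) := by
    refine XDeg.add ?_ (XDeg.of_C hE)
    have := (XDeg.of_C hW).mul (XDeg.of_X (R := κ) 0)
    rwa [add_zero] at this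
  have h2 : (B ^ (2 * (e - i))).natDegree ≤ 2 * (e - i) * d := natDegree_pow_le_of_le _ hB
  have h3 := (XDeg.of_C (natDegree_hsub_le A B hA hB D (Q.coeff i))).mul
    ((h1.pow i).mul (XDeg.of_C h2))
  refine h3.mono ?_
  obtain ⟨s, rfl⟩ : ∃ s, e = i + s := ⟨e - i, by omega⟩
  rw [Nat.add_sub_cancel_left]
  have : i * (2 * d) + 2 * s * d = 2 * d * (i + s) := by ring
  omega

lemma trf_lead (A B E : κ[X]) (D e : ℕ) (Q : κ[X][X]) (hQ : Q.natDegree ≤ e) :
    Lead (trf A B E D e Q) e (hsub A B D (Q.coeff e) * (wr A B) ^ e) := by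
  have hl : ∀ i, Lead ((C (wr A B) * X + C E : κ[X][X]) ^ i) i ((wr A B) ^ i) := by
    intro i
    have h1 : Lead (C (wr A B) * X : κ[X][X]) 1 (wr A B) :=
      (Lead.X'.C_mul (wr A B)).cast rfl (by ring)
    have h2 : Lead (C E : κ[X][X]) 1 0 := (Lead.C' E).lt one_pos
    exact (((h1.add h2).cast rfl (by ring)).pow i).cast (by ring) rfl
  have key : ∀ i ∈ range (e + 1), Lead (C (hsub A B D (Q.coeff i)) *
      ((C (wr A B) * X + C E) ^ i * C (B ^ (2 * (e - i))))) e
      (if i = e then hsub A B D (Q.coeff e) * (wr A B) ^ e else 0) := by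
    intro i hi
    have hi' : i ≤ e := Nat.lt_succ_iff.mp (mem_range.mp hi)
    have h1 := ((hl i).mul (Lead.C' (B ^ (2 * (e - i))))).C_mul (hsub A B D (Q.coeff i))
    rw [add_zero] at h1
    rcases hi'.lt_or_eq with hlt | heq
    · rw [if_neg hlt.ne]; exact h1.lt hlt
    · subst heq
      rw [if_pos rfl]
      refine h1.cast rfl ?_
      rw [Nat.sub_self, mul_zero, pow_zero, mul_one]
  have h5 := Lead.sum _ key
  rw [sum_ite_eq' (range (e + 1)) e, if_pos (mem_range.mpr (by omega))] at h5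
  exact h5

lemma trf_map (A B E : κ[X]) (hB : B ≠ 0) (D e : ℕ) (Q : κ[X][X]) (hQ : Q.natDegree ≤ e)
    (hD : XDeg Q D) :
    (trf A B E D e Q).map (io κ) = C (io κ B ^ (D + 2 * e)) *
      ((Q.map (phi0 A B)).comp (C (gg A B) * X + C (io κ E / io κ B ^ 2))) := by
  have hB' := io_ne hB
  rw [trf, Polynomial.map_sum, comp, eval₂_eq_sum_range' C
    (lt_of_le_of_lt ((natDegree_map_le).trans hQ) (Nat.lt_succ_self e)), mul_sum]
  refine sum_congr rfl fun i hi => ?_
  have hi' : i ≤ e := Nat.lt_succ_iff.mp (mem_range.mp hi)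
  rw [Polynomial.map_mul, Polynomial.map_mul, Polynomial.map_pow, Polynomial.map_add,
    Polynomial.map_mul, map_C, map_C, map_C, map_C, map_X, phi0_apply A B hB D _ (hD i),
    coeff_map, map_pow]
  have e1 : (C (io κ (wr A B)) * X + C (io κ E) : (FractionRing κ[X])[X]) =
      C (io κ B ^ 2) * (C (gg A B) * X + C (io κ E / io κ B ^ 2)) := by
    rw [mul_add, ← mul_assoc, ← C_mul, ← C_mul, gg]
    congr 3
    · field_simp
    · field_simp
  rw [e1, mul_pow, ← C_pow, ← pow_mul]
  have : io κ B ^ (D + 2 * e) = io κ B ^ D * io κ B ^ (2 * i) *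
      io κ B ^ (2 * (e - i)) := by
    rw [← pow_add, ← pow_add]; congr 1; omega
  rw [this]
  simp only [C_mul, C_pow]
  ring

/-- the constant of the descent -/
def TT (d : ℕ) : ℕ → ℕ → ℕ
  | 0, D => D
  | e + 1, D => max (TT d e D) (TT d e (D + (D * d + 2 * d * (e + 1)))) + D + 1

/-- a nonzero polynomial of degree at most `D` is nonzero at one of `D + 1` distinct points -/
lemma exists_ne_zero (q : κ[X]) (hq : q ≠ 0) (D : ℕ) (hD : q.natDegree ≤ D) (x : ℕ → κ)
    (b : ℕ) (hinj : ∀ i j, b ≤ i → i ≤ b + D → b ≤ j → j ≤ b + D → x i = x j → i = j) :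
    ∃ j, b ≤ j ∧ j ≤ b + D ∧ q.eval (x j) ≠ 0 := by
  classical
  by_contra hcon
  push Not at hcon
  apply hq
  apply Polynomial.eq_zero_of_natDegree_lt_card_of_eval_eq_zero' q
    ((Finset.Icc b (b + D)).image x)
  · intro y hy
    obtain ⟨j, hj, rfl⟩ := Finset.mem_image.mp hy
    rw [Finset.mem_Icc] at hj
    exact hcon j hj.1 hj.2
  · rw [Finset.card_image_of_injOn]
    · rw [Nat.card_Icc]; omega
    · intro i hi j hj hij
      rw [Finset.mem_coe, Finset.mem_Icc] at hi hj
      exact hinj i j hi.1 hi.2 hj.1 hj.2 hij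

lemma Rat.natDegree_wr {A B : κ[X]} {d : ℕ} (h : Rat A B d) : (wr A B).natDegree ≤ 2 * d := by
  rw [wr]
  refine (natDegree_sub_le _ _).trans (max_le ?_ ?_)
  · refine (natDegree_mul_le_of_le ((natDegree_derivative_le A).trans ?_) h.dB).trans
      (le_of_eq (two_mul d).symm)
    exact (Nat.sub_le _ _).trans h.dA
  · refine (natDegree_mul_le_of_le h.dA ((natDegree_derivative_le B).trans ?_)).trans
      (le_of_eq (two_mul d).symm)
    exact (Nat.sub_le _ _).trans h.dB

/-- the rigid case: the polynomial is a multiple of a power of `Y - p(X)` -/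
theorem rigid_case [IsAlgClosed κ] [CharZero κ] {d : ℕ} {A B : κ[X]}
    (h : Rat A B d) (hd : 2 ≤ d) (E : κ[X]) (hE : E.natDegree ≤ 2 * d) (D e : ℕ) (he : 1 ≤ e)
    (Q : κ[X][X])
    (hQ : Q.natDegree = e) (hQ0 : Q ≠ 0) (hD : XDeg Q D)
    (hR : C (Q.coeff e) * trf A B E D e Q = C (hsub A B D (Q.coeff e) * (wr A B) ^ e) * Q) :
    ∃ p : κ[X], p.natDegree ≤ 2 ∧ hsub A B 2 p = wr A B * p + E ∧
      Q = C (Q.coeff e) * (X - C p) ^ e := by
  have hd1 : 1 ≤ d := by omega
  have hB0 := h.B0 hd1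
  have hB' := io_ne hB0
  have hq0 : Q.coeff e ≠ 0 := by
    rw [← hQ]; exact leadingCoeff_ne_zero.mpr hQ0
  have hq' := io_ne hq0
  have hphiq : phi0 A B (Q.coeff e) ≠ 0 := by
    intro h0
    apply hq0
    apply h.phi0_inj hd1
    rw [h0, map_zero]
  set M : (FractionRing κ[X])[X] := C (io κ (Q.coeff e))⁻¹ * Q.map (io κ) with hM
  have hMdeg : M.natDegree = e := by
    rw [hM, natDegree_C_mul (inv_ne_zero hq'), natDegree_map_eq_of_injective io_inj, hQ]
  have hMmon : M.Monic := by
    rw [Monic, leadingCoeff, hMdeg, hM, coeff_C_mul, coeff_map, inv_mul_cancel₀ hq']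
  have hMphi : M.map (h.phi hd1) = C (phi0 A B (Q.coeff e))⁻¹ * Q.map (phi0 A B) := by
    rw [hM, Polynomial.map_mul, map_C, map_inv₀, h.phi_io hd1, Polynomial.map_map]
    have hcomp : (h.phi hd1).comp (io κ) = phi0 A B := RingHom.ext fun q => h.phi_io hd1 q
    rw [hcomp]
  have hrel : (M.map (h.phi hd1)).comp (C (gg A B) * X + C (io κ E / io κ B ^ 2)) =
      C (gg A B ^ e) * M := by
    have h1 := congrArg (Polynomial.map (io κ)) hR
    rw [Polynomial.map_mul, Polynomial.map_mul, trf_map A B E hB0 D e Q hQ.le hD, map_C, map_C,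
      map_mul (io κ), map_pow (io κ), phi0_apply A B hB0 D _ (hD e)] at h1
    rw [hMphi, mul_comp, C_comp, hM]
    have h2 : (Q.map (phi0 A B)).comp (C (gg A B) * X + C (io κ E / io κ B ^ 2)) =
        C (io κ (Q.coeff e) * io κ B ^ (D + 2 * e))⁻¹ *
          (C (io κ B ^ D * phi0 A B (Q.coeff e) * io κ (wr A B) ^ e) * Q.map (io κ)) := by
      rw [← h1, ← mul_assoc (C (io κ (Q.coeff e))), ← C_mul, ← mul_assoc, ← C_mul,
        inv_mul_cancel₀ (mul_ne_zero hq' (pow_ne_zero _ hB')), C_1, one_mul]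
    rw [h2]
    simp only [← mul_assoc, ← C_mul]
    congr 2
    rw [gg, div_pow, ← pow_mul, pow_add]
    field_simp
  have hg := h.gg_ne hd1
  obtain ⟨ub, hub1, hub2⟩ := rigid (h.phi hd1) (gg A B) (io κ E / io κ B ^ 2) hg e he
    (by
      have : (e : FractionRing κ[X]) = io κ ((e : ℕ) : κ[X]) := by rw [map_natCast]
      rw [this]
      apply io_ne
      have h0 : e ≠ 0 := by omega
      exact_mod_cast h0) M hMmon hMdeg hrel
    (fun l hl b hb => h.lemmaR hd (h.hasSpecial hd) hd1 l hl b hb)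
  obtain ⟨p, hp1, hp2, hp3⟩ := h.lemmaO hd (h.hasSpecial hd) hd1 ub E hE hub1
  refine ⟨p, hp1, hp3, ?_⟩
  apply Polynomial.map_injective (io κ) io_inj
  rw [Polynomial.map_mul, Polynomial.map_pow, Polynomial.map_sub, map_X, map_C, map_C, ← hp2,
    ← hub2, hM, ← mul_assoc, ← C_mul, mul_inv_cancel₀ hq', C_1, one_mul]

/-- **The descent.** -/
theorem descent [IsAlgClosed κ] [CharZero κ] {d : ℕ} {A B : κ[X]}
    (h : Rat A B d) (hd : 2 ≤ d) (E : κ[X]) (hE : E.natDegree ≤ 2 * d) (x u : ℕ → κ) (n : ℕ)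
    (hinj : ∀ i j, i ≤ n → j ≤ n → x i = x j → i = j)
    (hstep : ∀ j, j < n → x (j + 1) * B.eval (x j) = A.eval (x j)) (b : ℕ)
    (hu : ∀ j, b ≤ j → j < n → u (j + 1) * B.eval (x j) ^ 2 =
      (wr A B).eval (x j) * u j + E.eval (x j)) :
    ∀ (e D m : ℕ) (Q : κ[X][X]), Q ≠ 0 → Q.natDegree ≤ e → XDeg Q D →
      (∀ j, b ≤ j → j ≤ m → evalEval (x j) (u j) Q = 0) → m ≤ n → b + TT d e D ≤ m →
      ∃ p : κ[X], p.natDegree ≤ 2 ∧ hsub A B 2 p = wr A B * p + E ∧
        ∀ j, b + TT d e D ≤ j → j ≤ n → u j = p.eval (x j) := by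
  have hdA : A.natDegree ≤ d := h.dA
  have hdB : B.natDegree ≤ d := h.dB
  have hdW : (wr A B).natDegree ≤ 2 * d := h.natDegree_wr
  have hBx : ∀ j, j < n → B.eval (x j) ≠ 0 := by
    intro j hj h0
    have := hstep j hj
    rw [h0, mul_zero] at this
    exact eval_ne_of_coprime h.cop this.symm h0
  intro e
  induction e with
  | zero =>
    intro D m Q hQ0 hQ hD hv hm hT
    exfalso
    have hT' : b + D ≤ m := hT
    have hQC : Q = C (Q.coeff 0) := eq_C_of_natDegree_eq_zero (by omega)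
    have hq0 : Q.coeff 0 ≠ 0 := by
      intro h0
      apply hQ0
      rw [hQC, h0, C_0]
    obtain ⟨j, hj1, hj2, hj3⟩ := exists_ne_zero (Q.coeff 0) hq0 D (hD 0) x b
      (fun i j hi hi' hj hj' => hinj i j (by omega) (by omega))
    apply hj3
    have := hv j hj1 (by omega)
    rw [hQC, evalEval_C] at this
    exact this
  | succ e ih =>
    intro D m Q hQ0 hQ hD hv hm hT
    have hT' : b + (max (TT d e D) (TT d e (D + (D * d + 2 * d * (e + 1)))) + D + 1) ≤ m := hT
    have hTT : TT d (e + 1) D = max (TT d e D) (TT d e (D + (D * d + 2 * d * (e + 1)))) + D + 1 :=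
      rfl
    rw [hTT]
    rcases hQ.lt_or_eq with hlt | heq
    · obtain ⟨p, h1, h2, h3⟩ := ih D m Q hQ0 (by omega) hD hv hm (by omega)
      exact ⟨p, h1, h2, fun j hj hj' => h3 j (by omega) hj'⟩
    · set q : κ[X] := Q.coeff (e + 1) with hq
      have hq0 : q ≠ 0 := by
        rw [hq, ← heq]; exact leadingCoeff_ne_zero.mpr hQ0
      set Rr : κ[X][X] := C q * trf A B E D (e + 1) Q -
        C (hsub A B D q * (wr A B) ^ (e + 1)) * Q with hRr
      by_cases hR0 : Rr = 0
      · obtain ⟨p, hp1, hp2, hp3⟩ := rigid_case h hd E hE D (e + 1) (by omega) Q heq hQ0 hD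
          (sub_eq_zero.mp hR0)
        refine ⟨p, hp1, hp2, ?_⟩
        obtain ⟨j0, hj1, hj2, hj3⟩ := exists_ne_zero q hq0 D (hD (e + 1)) x b
          (fun i j hi hi' hj hj' => hinj i j (by omega) (by omega))
        have hstart : u j0 = p.eval (x j0) := by
          have h1 := hv j0 hj1 (by omega)
          rw [hp3, evalEval_mul, evalEval_C, evalEval_pow, evalEval_sub, evalEval_X,
            evalEval_C] at h1
          have h2 := (mul_eq_zero.mp h1).resolve_left hj3
          exact sub_eq_zero.mp (pow_eq_zero_iff (by omega) |>.mp h2)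
        have hall : ∀ k, j0 + k ≤ n → u (j0 + k) = p.eval (x (j0 + k)) := by
          intro k
          induction k with
          | zero => intro _; exact hstart
          | succ k ihk =>
            intro hk
            have h1 := ihk (by omega)
            have h2 := hu (j0 + k) (by omega) (by omega)
            rw [h1] at h2
            have h3 := hsub_eval A B 2 p hp1 (x (j0 + k)) (x (j0 + k + 1))
              (hstep _ (by omega))
            rw [hp2, eval_add, eval_mul] at h3
            rw [h3] at h2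
            apply mul_left_cancel₀ (pow_ne_zero 2 (hBx (j0 + k) (by omega)))
            rw [← add_assoc]
            linear_combination h2
        intro j hj hj'
        obtain ⟨k, rfl⟩ : ∃ k, j = j0 + k := ⟨j - j0, by omega⟩
        exact hall k hj'
      · have hRlead : Lead Rr (e + 1) 0 := by
          have h1 := (trf_lead A B E D (e + 1) Q hQ).C_mul q
          have h2 := (Lead.of_le hQ).C_mul (hsub A B D q * (wr A B) ^ (e + 1))
          refine (h1.sub h2).cast rfl ?_
          rw [← hq]; ring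
        have hRdeg : Rr.natDegree ≤ e := by
          by_contra hcon
          have h1 : Rr.natDegree = e + 1 := le_antisymm hRlead.1 (by omega)
          have h2 : Rr.leadingCoeff = 0 := by rw [leadingCoeff, h1]; exact hRlead.2
          exact hR0 (leadingCoeff_eq_zero.mp h2)
        have hRX : XDeg Rr (D + (D * d + 2 * d * (e + 1))) := by
          refine XDeg.sub ?_ ?_
          · exact (XDeg.of_C (hD (e + 1))).mul (trf_XDeg A B E hdA hdB hdW hE D (e + 1) Q)
          · have h1 : (hsub A B D q * (wr A B) ^ (e + 1)).natDegree ≤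
                D * d + (e + 1) * (2 * d) :=
              natDegree_mul_le_of_le (natDegree_hsub_le A B hdA hdB D q)
                (natDegree_pow_le_of_le _ hdW)
            refine ((XDeg.of_C h1).mul hD).mono ?_
            have : (e + 1) * (2 * d) = 2 * d * (e + 1) := by ring
            omega
        obtain ⟨p, h1, h2, h3⟩ := ih (D + (D * d + 2 * d * (e + 1))) (m - 1) Rr hR0 hRdeg hRX
          (by
            intro j hj hj'
            have h1 := trf_eval A B E D (e + 1) Q hQ hD (x j) (x (j + 1)) (u j) (u (j + 1))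
              (hstep j (by omega)) (hu j hj (by omega))
            rw [hv (j + 1) (by omega) (by omega), mul_zero] at h1
            rw [hRr, evalEval_sub, evalEval_mul, evalEval_mul, h1, hv j hj (by omega)]
            ring) (by omega) (by omega)
        exact ⟨p, h1, h2, fun j hj hj' => h3 j (by omega) hj'⟩

end Pool.Agent.Helper36.S5
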