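import Pool.Agent.Helper36.S5.Mob

/-!
# Module S5 of Plan S: existence of a special fixed point (Lagrange interpolation)
-/

set_option autoImplicit false
set_option linter.unusedSectionVars false

open Finset Polynomial

namespace Pool.Agent.Helper36.S5

variable {κ : Type*} [Field κ]

lemma re_one_div_one_sub {z : ℂ} (hz : z ≠ 1) (n : ℕ) (hn : 0 < n) (h : z ^ n = 1) :
    (1 / (1 - z)).re = 1 / 2 := by
  have h1 : ‖z‖ = 1 := by
    have h2 : ‖z‖ ^ n = 1 := by rw [← norm_pow, h, norm_one]
    exact (pow_eq_one_iff_of_nonneg (norm_nonneg z) hn.ne').mp h2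
  have h3 : z.re ^ 2 + z.im ^ 2 = 1 := by
    have h4 : Complex.normSq z = 1 := by rw [Complex.normSq_eq_norm_sq, h1]; norm_num
    rw [Complex.normSq_apply] at h4
    nlinarith
  have h5 : z.re ≠ 1 := by
    intro h6
    apply hz
    rw [h6] at h3
    have h7 : z.im = 0 := by nlinarith
    apply Complex.ext
    · rw [h6, Complex.one_re]
    · rw [h7, Complex.one_im]
  rw [one_div, Complex.inv_re, Complex.normSq_apply]
  simp only [Complex.sub_re, Complex.one_re, Complex.sub_im, Complex.one_im]
  have h8 : (1 - z.re) * (1 - z.re) + (0 - z.im) * (0 - z.im) = 2 * (1 - z.re) := by nlinarith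
  rw [h8]
  have h9 : 1 - z.re ≠ 0 := fun h => h5 (by linarith)
  field_simp

/-- the sum of `1/(1-λ)` is not one -/
lemma sum_ne_one [CharZero κ] {ι : Type*} (s : Finset ι) (lam : ι → κ)
    (hl : ∀ i ∈ s, lam i = 0 ∨ (lam i ≠ 1 ∧ ∃ n : ℕ, 0 < n ∧ lam i ^ n = 1))
    (hs : 3 ≤ s.card) : ∑ i ∈ s, 1 / (1 - lam i) ≠ 1 := by
  classical
  intro hsum
  have halg : ∀ i ∈ s, IsAlgebraic ℚ (lam i) := by
    intro i hi
    rcases hl i hi with h | ⟨_, n, hn, h⟩
    · rw [h]; exact isAlgebraic_zero
    · refine ⟨X ^ n - 1, ?_, ?_⟩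
      · exact (monic_X_pow_sub_C (1 : ℚ) hn.ne').ne_zero
      · simp [h]
  have hex : ∀ i : ι, ∃ m : algebraicClosure ℚ κ, i ∈ s → (m : κ) = lam i := by
    intro i
    by_cases hi : i ∈ s
    · exact ⟨⟨lam i, mem_algebraicClosure_iff.mpr (halg i hi)⟩, fun _ => rfl⟩
    · exact ⟨0, fun h => absurd h hi⟩
  choose m hm using hex
  have h1 : ∑ i ∈ s, 1 / (1 - m i) = 1 := by
    apply Subtype.ext
    push_cast
    refine Eq.trans ?_ hsum
    refine sum_congr rfl fun i hi => ?_
    rw [hm i hi]
  have : Algebra.IsAlgebraic ℚ (algebraicClosure ℚ κ) := algebraicClosure.isAlgebraic ℚ κ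
  obtain ⟨f⟩ : Nonempty ((algebraicClosure ℚ κ) →+* ℂ) :=
    ⟨(IsAlgClosed.lift : (algebraicClosure ℚ κ) →ₐ[ℚ] ℂ).toRingHom⟩
  have h2 := congrArg f h1
  rw [map_sum, map_one] at h2
  have h3 := congrArg Complex.re h2
  rw [Complex.re_sum, Complex.one_re] at h3
  have h4 : ∀ i ∈ s, (1 / 2 : ℝ) ≤ (f (1 / (1 - m i))).re := by
    intro i hi
    rw [map_div₀, map_one, map_sub, map_one]
    rcases hl i hi with h | ⟨hne, n, hn, h⟩
    · have h5 : m i = 0 := by
        apply Subtype.ext
        rw [hm i hi, h]; rfl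
      rw [h5, map_zero]; norm_num
    · have h5 : f (m i) ^ n = 1 := by
        rw [← map_pow]
        have : m i ^ n = 1 := by
          apply Subtype.ext
          push_cast
          rw [hm i hi, h]
        rw [this, map_one]
      have h6 : f (m i) ≠ 1 := by
        intro h7
        apply hne
        have h8 : m i = 1 := f.injective (by rw [h7, map_one])
        rw [← hm i hi, h8]; rfl
      rw [re_one_div_one_sub h6 n hn h5]
  have h5 := Finset.sum_le_sum h4
  rw [h3, sum_const, nsmul_eq_mul] at h5
  have h6 : (3 : ℝ) ≤ s.card := by exact_mod_cast hs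
  linarith

lemma lagrange_sum [IsAlgClosed κ] [DecidableEq κ] (p B : κ[X]) (n : ℕ) (hn : p.natDegree = n + 1)
    (hB : B.natDegree ≤ n) (hsep : ∀ x, p.eval x = 0 → (derivative p).eval x ≠ 0) :
    p.roots.toFinset.card = n + 1 ∧
      ∑ x ∈ p.roots.toFinset, B.eval x / (derivative p).eval x =
        B.coeff n / p.coeff (n + 1) := by
  have hp0 : p ≠ 0 := by rintro rfl; simp at hn
  have hcard : Multiset.card p.roots = n + 1 := by
    rw [← hn]; exact (IsAlgClosed.splits p).natDegree_eq_card_roots.symm
  have hnodup : p.roots.Nodup := by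
    rw [Multiset.nodup_iff_count_le_one]
    intro a
    rw [count_roots]
    by_contra hcon
    push Not at hcon
    have h1 := (one_lt_rootMultiplicity_iff_isRoot hp0).mp hcon
    exact hsep a h1.1 h1.2
  set s := p.roots.toFinset with hs
  have hsval : s.val = p.roots := by rw [hs, Multiset.toFinset_val, hnodup.dedup]
  have hscard : s.card = n + 1 := by rw [Finset.card, hsval, hcard]
  refine ⟨hscard, ?_⟩
  have hlc : p.leadingCoeff = p.coeff (n + 1) := by rw [leadingCoeff, hn]
  have hlc0 : p.leadingCoeff ≠ 0 := leadingCoeff_ne_zero.mpr hp0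
  have hpe : p = C p.leadingCoeff * Lagrange.nodal s id := by
    conv_lhs => rw [(IsAlgClosed.splits p).eq_prod_roots]
    rw [Lagrange.nodal, Finset.prod, hsval]
    simp
  have hinj : Set.InjOn (id : κ → κ) s := Set.injOn_id _
  have hdeg : B.degree < s.card := by
    rw [hscard]
    exact (degree_le_natDegree).trans_lt (by exact_mod_cast Nat.lt_succ_of_le hB)
  have h1 := Lagrange.coeff_eq_sum hinj hdeg
  rw [hscard, Nat.add_sub_cancel] at h1
  rw [h1, ← hlc, sum_div]
  refine sum_congr rfl fun x hx => ?_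
  have h2 : (derivative p).eval x = p.leadingCoeff * ∏ j ∈ s.erase x, (x - j) := by
    conv_lhs => rw [hpe, derivative_C_mul, eval_mul, eval_C]
    congr 1
    have h3 := Lagrange.eval_nodal_derivative_eval_node_eq (v := (id : κ → κ)) hx
    rw [id] at h3
    rw [h3, Lagrange.eval_nodal]
    simp
  rw [h2]
  simp only [id]
  rw [div_div, mul_comm]

/-- every rational map of degree `≥ 2` has a special fixed point -/
theorem Rat.hasSpecial [IsAlgClosed κ] [CharZero κ] {A B : κ[X]} {d : ℕ} (h : Rat A B d)
    (hd : 2 ≤ d) : HasSpecial A B d := by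
  classical
  by_contra hcon
  rw [HasSpecial, not_or] at hcon
  obtain ⟨hinfty, hfin⟩ := hcon
  have hnot : ∀ {α β : κ}, ¬ Special α β → α ≠ 0 → α - β ≠ 0 ∧
      (β / α = 0 ∨ (β / α ≠ 1 ∧ ∃ n : ℕ, 0 < n ∧ (β / α) ^ n = 1)) := by
    intro α β hS hα
    by_cases hβ : β = 0
    · rw [hβ]; simp [hα]
    · rw [Special, not_and, not_or] at hS
      obtain ⟨h1, h2⟩ := hS hβ
      push Not at h2
      obtain ⟨n, hn, h3⟩ := h2
      refine ⟨sub_ne_zero.mpr h1, Or.inr ⟨?_, n, hn, ?_⟩⟩
      · intro h4
        rw [div_eq_one_iff_eq hα] at h4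
        exact h1 h4.symm
      · rw [div_pow, h3, div_self (pow_ne_zero n hβ)]
  set p : κ[X] := X * B - A with hp
  have hroot : ∀ x, p.eval x = 0 → A.eval x = x * B.eval x ∧ B.eval x ≠ 0 := by
    intro x hx
    have h1 : A.eval x = x * B.eval x := by
      rw [hp, eval_sub, eval_mul, eval_X, sub_eq_zero] at hx; exact hx.symm
    refine ⟨h1, fun h2 => ?_⟩
    rw [h2, mul_zero] at h1
    exact eval_ne_of_coprime h.cop h1 h2
  have hder : ∀ x, (derivative p).eval x =
      B.eval x - ((derivative A).eval x - x * (derivative B).eval x) := by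
    intro x
    rw [hp, derivative_sub, derivative_mul, derivative_X]
    simp
    ring
  have hxs : ∀ x, p.eval x = 0 → ¬ Special (B.eval x)
      ((derivative A).eval x - x * (derivative B).eval x) := by
    intro x hx hS
    obtain ⟨h1, h2⟩ := hroot x hx
    exact hfin ⟨x, h1, h2, hS⟩
  have hsep : ∀ x, p.eval x = 0 → (derivative p).eval x ≠ 0 := by
    intro x hx
    rw [hder]
    exact (hnot (hxs x hx) (hroot x hx).2).1
  have hterm : ∀ x ∈ p.roots.toFinset, B.eval x / (derivative p).eval x =
      1 / (1 - ((derivative A).eval x - x * (derivative B).eval x) / B.eval x) := by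
    intro x hx
    rw [Multiset.mem_toFinset] at hx
    have hx0 : p.eval x = 0 := (mem_roots'.mp hx).2
    have h2 := (hroot x hx0).2
    have h3 := hsep x hx0
    rw [hder] at h3 ⊢
    field_simp
  have hl : ∀ x ∈ p.roots.toFinset,
      (((derivative A).eval x - x * (derivative B).eval x) / B.eval x = 0 ∨
      (((derivative A).eval x - x * (derivative B).eval x) / B.eval x ≠ 1 ∧ ∃ n : ℕ, 0 < n ∧
        (((derivative A).eval x - x * (derivative B).eval x) / B.eval x) ^ n = 1)) := by
    intro x hx
    rw [Multiset.mem_toFinset] at hx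
    have hx0 : p.eval x = 0 := (mem_roots'.mp hx).2
    exact (hnot (hxs x hx0) (hroot x hx0).2).2
  have lXB : Lead (X * B) (d + 1) (B.coeff d) :=
    ((Lead.X').mul (Lead.of_le h.dB)).cast (by ring) (by ring)
  have lA : Lead A (d + 1) 0 := (Lead.of_le h.dA).lt (Nat.lt_succ_self d)
  by_cases hBd : B.coeff d = 0
  · -- infinity is fixed
    have hAd : A.coeff d ≠ 0 := by
      rcases h.top with h1 | h1
      · exact h1
      · exact absurd hBd h1
    have hBdeg : B.natDegree ≤ d - 1 := by
      by_contra hcon2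
      have h1 : B.natDegree = d := le_antisymm h.dB (by omega)
      have h2 : B.leadingCoeff = 0 := by rw [leadingCoeff, h1]; exact hBd
      exact h.B0 (by omega) (leadingCoeff_eq_zero.mp h2)
    have hS : ¬ Special (A.coeff d) (B.coeff (d - 1)) := fun hS => hinfty ⟨hAd, hBd, hS⟩
    obtain ⟨hne, hlam⟩ := hnot hS hAd
    have lp : Lead p d (B.coeff (d - 1) - A.coeff d) := by
      have h1 : Lead (X * B) d (B.coeff (d - 1)) :=
        ((Lead.X').mul (Lead.of_le hBdeg)).cast (by omega) (by ring)
      exact h1.sub (Lead.of_le h.dA)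
    have hne' : B.coeff (d - 1) - A.coeff d ≠ 0 := by
      intro h1; apply hne; linear_combination -h1
    have hpn : p.natDegree = (d - 1) + 1 := by rw [lp.natDegree_eq hne']; omega
    obtain ⟨hcard, hsum⟩ := lagrange_sum p B (d - 1) hpn hBdeg hsep
    have hpc : p.coeff (d - 1 + 1) = B.coeff (d - 1) - A.coeff d := by
      rw [show d - 1 + 1 = d by omega]; exact lp.2
    rw [hpc] at hsum
    let lam : Option κ → κ := fun o => match o with
      | none => B.coeff (d - 1) / A.coeff d
      | some x => ((derivative A).eval x - x * (derivative B).eval x) / B.eval x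
    apply sum_ne_one (Finset.insertNone p.roots.toFinset) lam
    · intro o ho
      cases o with
      | none => exact hlam
      | some x => exact hl x (by simpa using ho)
    · rw [Finset.card_insertNone, hcard]; omega
    · rw [Finset.sum_insertNone]
      have h1 : ∑ x ∈ p.roots.toFinset, 1 / (1 - lam (some x)) =
          ∑ x ∈ p.roots.toFinset, B.eval x / (derivative p).eval x :=
        sum_congr rfl fun x hx => (hterm x hx).symm
      rw [h1, hsum]
      change 1 / (1 - B.coeff (d - 1) / A.coeff d) + _ = 1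
      have h2 : 1 - B.coeff (d - 1) / A.coeff d = (A.coeff d - B.coeff (d - 1)) / A.coeff d := by
        field_simp
      rw [h2, one_div_div, ← neg_sub (A.coeff d), div_neg, ← sub_eq_add_neg, ← sub_div,
        div_self hne]
  · have lp : Lead p (d + 1) (B.coeff d) := (lXB.sub lA).cast rfl (by ring)
    have hpn : p.natDegree = d + 1 := lp.natDegree_eq hBd
    obtain ⟨hcard, hsum⟩ := lagrange_sum p B d hpn h.dB hsep
    rw [lp.2, div_self hBd] at hsum
    apply sum_ne_one p.roots.toFinset
      (fun x => ((derivative A).eval x - x * (derivative B).eval x) / B.eval x) hl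
    · rw [hcard]; omega
    · refine Eq.trans ?_ hsum
      exact sum_congr rfl fun x hx => (hterm x hx).symm

end Pool.Agent.Helper36.S5
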