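import Pool.Agent.Helper36.S5.Rigid

/-!
# Module S5 of Plan S: rational functions in a general coordinate, and the change of coordinates
moving a special finite fixed point to infinity
-/

set_option autoImplicit false
set_option linter.unusedSectionVars false

open Finset Polynomial

namespace Pool.Agent.Helper36.S5

variable {κ : Type*} [Field κ]

/-- `A / B` is a rational function of degree `d` -/
structure Rat (A B : κ[X]) (d : ℕ) : Prop where
  cop : IsCoprime A B
  dA : A.natDegree ≤ d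
  dB : B.natDegree ≤ d
  top : A.coeff d ≠ 0 ∨ B.coeff d ≠ 0

namespace Rat

variable {A B : κ[X]} {d : ℕ}

lemma not_const (h : Rat A B d) (hd : 1 ≤ d) (c : κ) : A ≠ C c * B := by
  intro hA
  have hu : IsUnit B := by
    obtain ⟨u, v, huv⟩ := h.cop
    exact isUnit_iff_exists_inv.mpr ⟨u * C c + v, by rw [← huv, hA]; ring⟩
  have hB0 : B.natDegree = 0 := natDegree_eq_zero_of_isUnit hu
  have hB : B.coeff d = 0 := coeff_eq_zero_of_natDegree_lt (by omega)
  have hA' : A.coeff d = 0 := by rw [hA, coeff_C_mul, hB, mul_zero]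
  rcases h.top with h1 | h1
  · exact h1 hA'
  · exact h1 hB

lemma B0 (h : Rat A B d) (hd : 1 ≤ d) : B ≠ 0 := by
  rintro rfl
  have hu : IsUnit A := by
    obtain ⟨u, v, huv⟩ := h.cop
    exact isUnit_iff_exists_inv.mpr ⟨u, by rw [← huv]; ring⟩
  have hA0 : A.natDegree = 0 := natDegree_eq_zero_of_isUnit hu
  have hA : A.coeff d = 0 := coeff_eq_zero_of_natDegree_lt (by omega)
  rcases h.top with h1 | h1
  · exact h1 hA
  · exact h1 (by simp)

lemma phi0_inj [IsAlgClosed κ] (h : Rat A B d) (hd : 1 ≤ d) : Function.Injective (phi0 A B) := by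
  rw [injective_iff_map_eq_zero]
  intro q hq
  by_contra hq0
  have hB := io_ne (h.B0 hd)
  have hs := (IsAlgClosed.splits q)
  have e : q = C q.leadingCoeff * (q.roots.map fun a => X - C a).prod :=
    hs.eq_prod_roots
  rw [e, map_mul, map_multiset_prod, Multiset.map_map] at hq
  rcases mul_eq_zero.mp hq with h1 | h1
  · rw [phi0, coe_eval₂RingHom, eval₂_C, RingHom.comp_apply] at h1
    exact io_ne (C_ne_zero.mpr (leadingCoeff_ne_zero.mpr hq0)) h1
  · rw [Multiset.prod_eq_zero_iff, Multiset.mem_map] at h1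
    obtain ⟨a, _, ha⟩ := h1
    rw [Function.comp_apply, phi0, coe_eval₂RingHom, eval₂_sub, eval₂_X, eval₂_C,
      RingHom.comp_apply, sub_eq_zero, div_eq_iff hB, ← map_mul] at ha
    exact h.not_const hd a (io_inj ha)

/-- substitution of `A/B` in rational functions -/
noncomputable def phi [IsAlgClosed κ] (h : Rat A B d) (hd : 1 ≤ d) :
    FractionRing κ[X] →+* FractionRing κ[X] :=
  IsFractionRing.lift (h.phi0_inj hd)

lemma phi_io [IsAlgClosed κ] (h : Rat A B d) (hd : 1 ≤ d) (q : κ[X]) :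
    h.phi hd (io κ q) = phi0 A B q :=
  IsFractionRing.lift_algebraMap (h.phi0_inj hd) q

lemma W0 [CharZero κ] (h : Rat A B d) (hd : 1 ≤ d) : wr A B ≠ 0 := by
  intro hW
  rw [wr, sub_eq_zero] at hW
  have hB0 := h.B0 hd
  have h1 : B ∣ derivative B := by
    apply h.cop.symm.dvd_of_dvd_mul_left
    rw [← hW]; exact dvd_mul_left _ _
  have hBd : B.natDegree = 0 := by
    by_contra hne
    exact dvd_derivative_absurd (Nat.pos_of_ne_zero hne) h1
  have h2 : derivative A * B = 0 := by
    rw [hW, derivative_of_natDegree_zero hBd, mul_zero]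
  have h3 : derivative A = 0 := (mul_eq_zero.mp h2).resolve_right hB0
  have hAd : A.natDegree = 0 := Polynomial.derivative_eq_zero.mp h3
  rcases h.top with h4 | h4
  · exact h4 (coeff_eq_zero_of_natDegree_lt (by omega))
  · exact h4 (coeff_eq_zero_of_natDegree_lt (by omega))

lemma gg_ne [CharZero κ] (h : Rat A B d) (hd : 1 ≤ d) : gg A B ≠ 0 :=
  div_ne_zero (io_ne (h.W0 hd)) (pow_ne_zero _ (io_ne (h.B0 hd)))

end Rat

/-- the Moebius transformation `X ↦ q + 1/X` -/
lemma ratMob (q : κ) : Rat (C q * X + 1 : κ[X]) X 1 := by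
  refine ⟨⟨1, -C q, by ring⟩, ?_, natDegree_X_le, Or.inr (by simp)⟩
  refine natDegree_add_le_of_degree_le ((natDegree_C_mul_le _ _).trans natDegree_X_le) (by simp)

lemma lead_mob (q : κ) : Lead (C q * X + 1 : κ[X]) 1 q := by
  have := lead_linear q 1
  rwa [C_1] at this

/-- `hsub` for the Moebius transformation -/
lemma lead_hsub_mob (q : κ) (n : ℕ) (P : κ[X]) (hP : P.natDegree ≤ n) :
    Lead (hsub (C q * X + 1) X n P) n (P.eval q) := by
  have key : ∀ i ∈ range (n + 1), Lead (C (P.coeff i) * ((C q * X + 1) ^ i * X ^ (n - i))) n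
      (P.coeff i * q ^ i) := by
    intro i hi
    have hi' : i ≤ n := Nat.lt_succ_iff.mp (mem_range.mp hi)
    refine ((((lead_mob q).pow i).mul ((Lead.X' (R := κ)).pow (n - i))).C_mul (P.coeff i)).cast
      ?_ ?_
    · omega
    · rw [one_pow, mul_one]
  have := Lead.sum _ key
  rw [eval_eq_sum_range' (lt_of_le_of_lt hP (Nat.lt_succ_self n))]
  exact this

/-- derivative of `X^n P(q + 1/X)` -/
lemma derivative_hsub_mob (q : κ) (n : ℕ) (P : κ[X]) :
    X * derivative (hsub (C q * X + 1) X (n + 1) P) =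
      ((n + 1 : ℕ) : κ[X]) * hsub (C q * X + 1) X (n + 1) P -
        hsub (C q * X + 1) X n (derivative P) := by
  have h0 : hsub (C q * X + 1) X n (derivative P) = ∑ i ∈ range (n + 2),
      C (P.coeff i) * (((i : ℕ) : κ[X]) * ((C q * X + 1) ^ (i - 1) * X ^ (n + 1 - i))) := by
    rw [hsub, sum_range_succ' _ (n + 1)]
    simp only [Nat.cast_zero, zero_mul, mul_zero, add_zero]
    refine sum_congr rfl fun i hi => ?_
    have hi' : i ≤ n := Nat.lt_succ_iff.mp (mem_range.mp hi)
    rw [coeff_derivative, C_mul, Nat.add_sub_cancel, show n + 1 - (i + 1) = n - i by omega]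
    simp only [map_add, map_natCast, C_1, Nat.cast_add, Nat.cast_one]
    ring
  rw [h0, hsub, derivative_sum, mul_sum, mul_sum, ← sum_sub_distrib]
  refine sum_congr rfl fun i hi => ?_
  have hi' : i ≤ n + 1 := Nat.lt_succ_iff.mp (mem_range.mp hi)
  rw [derivative_C_mul, derivative_mul, derivative_pow, derivative_X_pow, derivative_add,
    derivative_C_mul, derivative_X, derivative_one]
  obtain ⟨s, hs⟩ : ∃ s, n + 1 = i + s := ⟨n + 1 - i, by omega⟩
  rw [hs, Nat.add_sub_cancel_left]
  rcases Nat.eq_zero_or_pos i with h1 | h1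
  · subst h1
    rcases Nat.eq_zero_or_pos s with h2 | h2
    · subst h2; simp
    · obtain ⟨s', rfl⟩ : ∃ s', s = s' + 1 := ⟨s - 1, by omega⟩
      simp
      ring
  · obtain ⟨i', rfl⟩ : ∃ i', i = i' + 1 := ⟨i - 1, by omega⟩
    rcases Nat.eq_zero_or_pos s with h2 | h2
    · subst h2
      simp
      ring
    · obtain ⟨s', rfl⟩ : ∃ s', s = s' + 1 := ⟨s - 1, by omega⟩
      simp
      ring

end Pool.Agent.Helper36.S5
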