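import Mathlib

/-!
# Module S5 of Plan S (MP_9b502d): leading term calculus and homogeneous substitution
-/

set_option autoImplicit false

open Finset Polynomial

namespace Pool.Agent.Helper36.S5

variable {R : Type*} [CommRing R]

/-- `P` has degree at most `m` and its coefficient at `m` is `c` -/
def Lead (P : R[X]) (m : ℕ) (c : R) : Prop := P.natDegree ≤ m ∧ P.coeff m = c

namespace Lead

lemma mul {P Q : R[X]} {m n : ℕ} {c e : R} (hP : Lead P m c) (hQ : Lead Q n e) :
    Lead (P * Q) (m + n) (c * e) :=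
  ⟨natDegree_mul_le_of_le hP.1 hQ.1, by
    rw [coeff_mul_add_eq_of_natDegree_le hP.1 hQ.1, hP.2, hQ.2]⟩

lemma pow {P : R[X]} {m : ℕ} {c : R} (hP : Lead P m c) (k : ℕ) :
    Lead (P ^ k) (k * m) (c ^ k) := by
  induction k with
  | zero => simp [Lead]
  | succ k ih =>
    have h := ih.mul hP
    rw [← pow_succ, ← pow_succ] at h
    have e : k * m + m = (k + 1) * m := by ring
    rwa [e] at h

lemma add {P Q : R[X]} {m : ℕ} {c e : R} (hP : Lead P m c) (hQ : Lead Q m e) :
    Lead (P + Q) m (c + e) :=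
  ⟨natDegree_add_le_of_degree_le hP.1 hQ.1, by rw [coeff_add, hP.2, hQ.2]⟩

lemma neg {P : R[X]} {m : ℕ} {c : R} (hP : Lead P m c) : Lead (-P) m (-c) :=
  ⟨by rw [natDegree_neg]; exact hP.1, by rw [coeff_neg, hP.2]⟩

lemma sub {P Q : R[X]} {m : ℕ} {c e : R} (hP : Lead P m c) (hQ : Lead Q m e) :
    Lead (P - Q) m (c - e) := by
  rw [sub_eq_add_neg, sub_eq_add_neg]; exact hP.add hQ.neg

lemma sum {ι : Type*} (s : Finset ι) {P : ι → R[X]} {m : ℕ} {c : ι → R}
    (h : ∀ i ∈ s, Lead (P i) m (c i)) : Lead (∑ i ∈ s, P i) m (∑ i ∈ s, c i) := by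
  classical
  induction s using Finset.induction_on with
  | empty => simp [Lead]
  | insert a s ha ih =>
    rw [sum_insert ha, sum_insert ha]
    exact (h a (mem_insert_self a s)).add (ih fun i hi => h i (mem_insert_of_mem hi))

lemma C_mul {P : R[X]} {m : ℕ} {c : R} (hP : Lead P m c) (a : R) :
    Lead (C a * P) m (a * c) := by
  have h : Lead (C a) 0 a := ⟨by simp, by simp⟩
  have := h.mul hP
  rwa [zero_add] at this

lemma C' (a : R) : Lead (C a) 0 a := ⟨by simp, by simp⟩

lemma X' : Lead (X : R[X]) 1 1 := ⟨natDegree_X_le, by simp⟩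

lemma lt {P : R[X]} {m n : ℕ} {c : R} (hP : Lead P m c) (h : m < n) : Lead P n 0 :=
  ⟨hP.1.trans h.le, coeff_eq_zero_of_natDegree_lt (hP.1.trans_lt h)⟩

lemma cast {P : R[X]} {m n : ℕ} {c e : R} (hP : Lead P m c) (h : m = n) (h' : c = e) :
    Lead P n e := by subst h; subst h'; exact hP

lemma of_natDegree (P : R[X]) : Lead P P.natDegree P.leadingCoeff := ⟨le_rfl, rfl⟩

lemma of_le {P : R[X]} {m : ℕ} (h : P.natDegree ≤ m) : Lead P m (P.coeff m) := ⟨h, rfl⟩

/-- `X · P'` -/
lemma X_mul_derivative {P : R[X]} {m : ℕ} {c : R} (hP : Lead P m c) :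
    Lead (X * derivative P) m (m * c) := by
  constructor
  · rcases Nat.eq_zero_or_pos P.natDegree with h | h
    · rw [derivative_of_natDegree_zero h]; simp
    · refine (natDegree_mul_le_of_le (m := 1) (n := P.natDegree - 1) natDegree_X_le
        (natDegree_derivative_le P)).trans ?_
      have := hP.1
      omega
  · cases m with
    | zero => simp
    | succ m =>
      rw [coeff_X_mul, coeff_derivative, hP.2]
      push_cast; ring

lemma natDegree_eq {P : R[X]} {m : ℕ} {c : R} (hP : Lead P m c) (hc : c ≠ 0) :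
    P.natDegree = m :=
  le_antisymm hP.1 (le_natDegree_of_ne_zero (by rw [hP.2]; exact hc))

lemma ne_zero {P : R[X]} {m : ℕ} {c : R} (hP : Lead P m c) (hc : c ≠ 0) : P ≠ 0 := by
  rintro rfl
  apply hc
  rw [← hP.2, coeff_zero]

lemma leadingCoeff_eq {P : R[X]} {m : ℕ} {c : R} (hP : Lead P m c) (hc : c ≠ 0) :
    P.leadingCoeff = c := by
  rw [leadingCoeff, hP.natDegree_eq hc, hP.2]

lemma unique {P : R[X]} {m : ℕ} {c e : R} (hP : Lead P m c) (hP' : Lead P m e) : c = e := by
  rw [← hP.2, ← hP'.2]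

end Lead

/-- homogenised substitution `∑_{i ≤ n} q_i A^i B^(n-i)` -/
noncomputable def hsub (A B : R[X]) (n : ℕ) (q : R[X]) : R[X] :=
  ∑ i ∈ range (n + 1), C (q.coeff i) * (A ^ i * B ^ (n - i))

lemma hsub_eval (A B : R[X]) (n : ℕ) (q : R[X]) (hq : q.natDegree ≤ n) (x y : R)
    (h : y * B.eval x = A.eval x) :
    (hsub A B n q).eval x = (B.eval x) ^ n * q.eval y := by
  rw [hsub, eval_finsetSum, eval_eq_sum_range' (lt_of_le_of_lt hq (Nat.lt_succ_self n)) y,
    mul_sum]
  refine sum_congr rfl fun i hi => ?_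
  have hi' : i ≤ n := Nat.lt_succ_iff.mp (mem_range.mp hi)
  simp only [eval_mul, eval_C, eval_pow]
  rw [← h, mul_pow]
  have : (B.eval x) ^ n = (B.eval x) ^ i * (B.eval x) ^ (n - i) := by
    rw [← pow_add]; congr 1; omega
  rw [this]; ring

/-- padding: `hsub` at a larger index -/
lemma hsub_pad (A B : R[X]) (n m : ℕ) (q : R[X]) (hq : q.natDegree ≤ n) (h : n ≤ m) :
    hsub A B m q = hsub A B n q * B ^ (m - n) := by
  rw [hsub, hsub, sum_mul]
  have hsub' : range (n + 1) ⊆ range (m + 1) := range_subset_range.mpr (by omega)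
  rw [← sum_subset hsub' (fun i _ hi => ?_)]
  · refine sum_congr rfl fun i hi => ?_
    have hi' : i ≤ n := Nat.lt_succ_iff.mp (mem_range.mp hi)
    rw [mul_assoc, mul_assoc, ← pow_add]
    congr 3; omega
  · have : q.coeff i = 0 := coeff_eq_zero_of_natDegree_lt (by
      simp only [mem_range, not_lt] at hi; omega)
    rw [this]; simp

/-- `hsub A B n q ≡ q_n A^n mod B` -/
lemma hsub_mod (A B : R[X]) (n : ℕ) (q : R[X]) :
    ∃ S : R[X], hsub A B n q = C (q.coeff n) * A ^ n + B * S := by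
  refine ⟨∑ i ∈ range n, C (q.coeff i) * (A ^ i * B ^ (n - i - 1)), ?_⟩
  rw [hsub, sum_range_succ, add_comm, Nat.sub_self, pow_zero, mul_one, mul_sum]
  congr 1
  refine sum_congr rfl fun i hi => ?_
  have hi' : i < n := mem_range.mp hi
  have : B ^ (n - i) = B * B ^ (n - i - 1) := by
    rw [← pow_succ']; congr 1; omega
  rw [this]; ring

lemma hsub_eval_of_root (A B : R[X]) (n : ℕ) (q : R[X]) (x : R) (hx : B.eval x = 0) :
    (hsub A B n q).eval x = q.coeff n * (A.eval x) ^ n := by
  obtain ⟨S, hS⟩ := hsub_mod A B n q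
  rw [hS]; simp [hx]

lemma hsub_C (A B : R[X]) (q : R[X]) (hq : q.natDegree = 0) : hsub A B 0 q = q := by
  rw [hsub]
  simp only [zero_add, range_one, sum_singleton, pow_zero, Nat.sub_zero, mul_one]
  exact (eq_C_of_natDegree_eq_zero hq).symm

lemma lead_hsub (A B : R[X]) {dA dB : ℕ} {α β : R} (hA : Lead A dA α) (hB : Lead B dB β)
    (hd : dB < dA) (q : R[X]) {a n : ℕ} {u : R} (hq : Lead q a u) (han : a ≤ n) :
    Lead (hsub A B n q) (a * dA + (n - a) * dB) (u * (α ^ a * β ^ (n - a))) := by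
  have key : ∀ i ∈ range (n + 1), Lead (C (q.coeff i) * (A ^ i * B ^ (n - i)))
      (a * dA + (n - a) * dB) (if i = a then u * (α ^ a * β ^ (n - a)) else 0) := by
    intro i hi
    have hi' : i ≤ n := Nat.lt_succ_iff.mp (mem_range.mp hi)
    have h1 : Lead (C (q.coeff i) * (A ^ i * B ^ (n - i))) (i * dA + (n - i) * dB)
        (q.coeff i * (α ^ i * β ^ (n - i))) := ((hA.pow i).mul (hB.pow (n - i))).C_mul _
    rcases lt_trichotomy i a with h | h | h
    · rw [if_neg h.ne]
      apply h1.lt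
      obtain ⟨s, rfl⟩ : ∃ s, dA = dB + 1 + s := ⟨dA - dB - 1, by omega⟩
      have e1 : i * (dB + 1 + s) + (n - i) * dB = n * dB + i * (1 + s) := by
        have : n = i + (n - i) := by omega
        conv_rhs => rw [this]
        ring
      have e2 : a * (dB + 1 + s) + (n - a) * dB = n * dB + a * (1 + s) := by
        have : n = a + (n - a) := by omega
        conv_rhs => rw [this]
        ring
      rw [e1, e2]
      have : i * (1 + s) < a * (1 + s) := Nat.mul_lt_mul_of_pos_right h (by omega)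
      omega
    · subst h
      rw [if_pos rfl]
      exact h1.cast rfl (by rw [hq.2])
    · rw [if_neg h.ne']
      have : q.coeff i = 0 := coeff_eq_zero_of_natDegree_lt (hq.1.trans_lt h)
      rw [this]
      simp [Lead]
  have := Lead.sum _ key
  rw [sum_ite_eq' (range (n + 1)) a] at this
  rw [if_pos (mem_range.mpr (by omega))] at this
  exact this

end Pool.Agent.Helper36.S5
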