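import Pool.Agent.Helper36.S5.Lead

/-!
# Module S5 of Plan S: Lemma R and Lemma O

`f = A/B` with `deg A = d`, `deg B = d - 1` over an algebraically closed field of characteristic
zero; `∞` is a fixed point with multiplier `β/α` (quotient of the leading coefficients) equal to
one or not a root of unity.
-/

set_option autoImplicit false

open Finset Polynomial

namespace Pool.Agent.Helper36.S5

variable {κ : Type*} [Field κ]

/-- Wronskian `A'B - AB'` -/
noncomputable def wr (A B : κ[X]) : κ[X] := derivative A * B - A * derivative B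

/-- order of the Wronskian at a zero of one of the two polynomials -/
lemma wr_order [CharZero κ] (A B : κ[X]) (z : κ) (hA : A.eval z = 0) (hA0 : A ≠ 0)
    (hB : B.eval z ≠ 0) :
    ∃ (m : ℕ) (S W₂ : κ[X]), A = (X - C z) ^ (m + 1) * S ∧ S.eval z ≠ 0 ∧
      wr A B = (X - C z) ^ m * W₂ ∧ W₂.eval z ≠ 0 := by
  obtain ⟨S, hS, hS'⟩ := exists_eq_pow_rootMultiplicity_mul_and_not_dvd A hA0 z
  have hm : 0 < A.rootMultiplicity z := (rootMultiplicity_pos hA0).mpr hA
  obtain ⟨m, hm'⟩ : ∃ m, A.rootMultiplicity z = m + 1 := ⟨_, (Nat.succ_pred_eq_of_pos hm).symm⟩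
  rw [hm'] at hS
  have hSz : S.eval z ≠ 0 := fun h => hS' (dvd_iff_isRoot.mpr h)
  refine ⟨m, S, ((m + 1 : ℕ) : κ[X]) * S * B + (X - C z) * (derivative S * B - S * derivative B),
    hS, hSz, ?_, ?_⟩
  · rw [wr, hS, derivative_mul, derivative_pow]
    simp only [derivative_sub, derivative_X, derivative_C, sub_zero, mul_one,
      Nat.add_sub_cancel]
    rw [pow_succ]
    simp only [map_natCast]
    ring
  · simp only [eval_add, eval_mul, eval_sub, eval_X, eval_C, sub_self, zero_mul, add_zero,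
      eval_natCast]
    refine mul_ne_zero (mul_ne_zero ?_ hSz) hB
    exact_mod_cast Nat.succ_ne_zero m

lemma wr_comm (A B : κ[X]) : wr B A = - wr A B := by
  rw [wr, wr]; ring

lemma lead_wr {A B : κ[X]} {a b : ℕ} {α β : κ} (hA : Lead A a α) (hB : Lead B b β) :
    Lead (X * wr A B) (a + b) (((a : κ) - b) * (α * β)) := by
  have h : X * wr A B = (X * derivative A) * B - A * (X * derivative B) := by
    rw [wr]; ring
  rw [h]
  have h1 := hA.X_mul_derivative.mul hB
  have h2 := hA.mul hB.X_mul_derivative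
  refine (h1.sub h2).cast rfl ?_
  ring

/-- the standing hypotheses on `f = A/B` (with `∞` a special fixed point) -/
structure Spec (d : ℕ) (A B : κ[X]) (α β : κ) : Prop where
  hd : 2 ≤ d
  lA : Lead A d α
  lB : Lead B (d - 1) β
  α0 : α ≠ 0
  β0 : β ≠ 0
  co : IsCoprime A B
  sp : α = β ∨ ∀ n : ℕ, 0 < n → α ^ n ≠ β ^ n

namespace Spec

variable {d : ℕ} {A B : κ[X]} {α β : κ}

lemma B0 (h : Spec d A B α β) : B ≠ 0 := h.lB.ne_zero h.β0
lemma A0 (h : Spec d A B α β) : A ≠ 0 := h.lA.ne_zero h.α0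

lemma leadW (h : Spec d A B α β) : Lead (wr A B) (2 * (d - 1)) (α * β) := by
  have h1 := lead_wr h.lA h.lB
  obtain ⟨s, hs⟩ : ∃ s, d = s + 2 := ⟨d - 2, by have := h.hd; omega⟩
  subst hs
  have e : (((s + 2 : ℕ) : κ) - ((s + 2 - 1 : ℕ) : κ)) * (α * β) = α * β := by
    rw [show s + 2 - 1 = s + 1 by omega]
    push_cast
    ring
  rw [e] at h1
  have e2 : s + 2 + (s + 2 - 1) = 2 * (s + 2 - 1) + 1 := by omega
  constructor
  · by_cases hw : wr A B = 0
    · rw [hw]; simp
    · have := h1.1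
      rw [natDegree_X_mul hw, e2] at this
      omega
  · rw [← coeff_X_mul, ← e2]
    exact h1.2

lemma W0 (h : Spec d A B α β) : wr A B ≠ 0 := h.leadW.ne_zero (mul_ne_zero h.α0 h.β0)

lemma exists_rootB [IsAlgClosed κ] (h : Spec d A B α β) : ∃ z, B.eval z = 0 := by
  apply IsAlgClosed.exists_root
  rw [degree_eq_natDegree h.B0, h.lB.natDegree_eq h.β0]
  have := h.hd
  exact_mod_cast (by omega : d - 1 ≠ 0)

lemma A_ne (h : Spec d A B α β) {z : κ} (hz : B.eval z = 0) : A.eval z ≠ 0 := by
  obtain ⟨u, v, huv⟩ := h.co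
  intro hA
  have := congrArg (eval z) huv
  simp [hA, hz] at this

lemma notUnitB (h : Spec d A B α β) : ¬ IsUnit B := by
  intro hu
  have := natDegree_eq_zero_of_isUnit hu
  rw [h.lB.natDegree_eq h.β0] at this
  have := h.hd
  omega

end Spec

lemma isCoprime_of_no_root [IsAlgClosed κ] (P Q : κ[X])
    (h : ∀ z, P.eval z = 0 → Q.eval z ≠ 0) (hP : P ≠ 0) : IsCoprime P Q := by
  classical
  by_contra hcon
  have hg : EuclideanDomain.gcd P Q ≠ 0 := by
    intro h0
    rw [EuclideanDomain.gcd_eq_zero_iff] at h0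
    exact hP h0.1
  have hu : ¬ IsUnit (EuclideanDomain.gcd P Q) := fun hu =>
    hcon (EuclideanDomain.gcd_isUnit_iff.mp hu)
  have hdeg : (EuclideanDomain.gcd P Q).degree ≠ 0 := by
    intro h0
    apply hu
    rw [eq_C_of_degree_eq_zero h0]
    rw [isUnit_C, isUnit_iff_ne_zero]
    intro hc
    rw [eq_C_of_degree_eq_zero h0, hc, C_0] at hg
    exact hg rfl
  obtain ⟨z, hz⟩ := IsAlgClosed.exists_root _ hdeg
  have h1 : P.eval z = 0 := by
    obtain ⟨s, hs⟩ := EuclideanDomain.gcd_dvd_left P Q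
    rw [hs, eval_mul, hz, zero_mul]
  have h2 : Q.eval z = 0 := by
    obtain ⟨s, hs⟩ := EuclideanDomain.gcd_dvd_right P Q
    rw [hs, eval_mul, hz, zero_mul]
  exact h z h1 h2

lemma eval_ne_of_coprime {P Q : κ[X]} (h : IsCoprime P Q) {z : κ} (hz : P.eval z = 0) :
    Q.eval z ≠ 0 := by
  obtain ⟨u, v, huv⟩ := h
  intro hA
  have := congrArg (eval z) huv
  simp [hA, hz] at this

/-- the denominator of a solution is trivial and its degree is at most `2l` -/
lemma Spec.denom [IsAlgClosed κ] {d : ℕ} {A B : κ[X]} {α β : κ} (h : Spec d A B α β)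
    {U V E : κ[X]} (hUV : IsCoprime U V) (hU : U ≠ 0) (hV : V ≠ 0) (l : ℕ)
    (heq : hsub A B U.natDegree U * B ^ V.natDegree * V * B ^ (2 * l) =
      (wr A B) ^ l * U * hsub A B V.natDegree V * B ^ U.natDegree +
        E * hsub A B V.natDegree V * V * B ^ U.natDegree) :
    V.natDegree = 0 ∧ U.natDegree ≤ 2 * l ∧
      hsub A B U.natDegree U * B ^ (2 * l - U.natDegree) = (wr A B) ^ l * U + E * V := by
  have hd := h.hd
  have lV : Lead (hsub A B V.natDegree V) (V.natDegree * d + (V.natDegree - V.natDegree) * (d - 1))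
      (V.leadingCoeff * (α ^ V.natDegree * β ^ (V.natDegree - V.natDegree))) :=
    lead_hsub A B h.lA h.lB (by omega) V (Lead.of_natDegree V) le_rfl
  rw [Nat.sub_self, zero_mul, add_zero, pow_zero, mul_one] at lV
  have hVne : V.leadingCoeff * α ^ V.natDegree ≠ 0 :=
    mul_ne_zero (leadingCoeff_ne_zero.mpr hV) (pow_ne_zero _ h.α0)
  have hVh0 : hsub A B V.natDegree V ≠ 0 := lV.ne_zero hVne
  have hc1 : IsCoprime (hsub A B V.natDegree V) B := by
    apply IsCoprime.symm
    apply isCoprime_of_no_root _ _ _ h.B0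
    intro z hz
    rw [hsub_eval_of_root A B _ V z hz]
    exact mul_ne_zero (leadingCoeff_ne_zero.mpr hV) (pow_ne_zero _ (h.A_ne hz))
  have hc2 : IsCoprime (hsub A B V.natDegree V) (hsub A B U.natDegree U) := by
    apply isCoprime_of_no_root _ _ _ hVh0
    intro z hz hz2
    by_cases hB : B.eval z = 0
    · rw [hsub_eval_of_root A B _ V z hB] at hz
      exact mul_ne_zero (leadingCoeff_ne_zero.mpr hV) (pow_ne_zero _ (h.A_ne hB)) hz
    · have hy : (A.eval z / B.eval z) * B.eval z = A.eval z := by field_simp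
      rw [hsub_eval A B _ V le_rfl z _ hy] at hz
      rw [hsub_eval A B _ U le_rfl z _ hy] at hz2
      have hz' := (mul_eq_zero.mp hz).resolve_left (pow_ne_zero _ hB)
      have hz2' := (mul_eq_zero.mp hz2).resolve_left (pow_ne_zero _ hB)
      exact eval_ne_of_coprime hUV hz2' hz'
  have hdvd : hsub A B V.natDegree V ∣ V := by
    have h1 : hsub A B V.natDegree V ∣
        hsub A B U.natDegree U * (B ^ V.natDegree * (B ^ (2 * l) * V)) := by
      refine ⟨(wr A B) ^ l * U * B ^ U.natDegree + E * V * B ^ U.natDegree, ?_⟩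
      linear_combination heq
    exact (hc1.pow_right).dvd_of_dvd_mul_left
      ((hc1.pow_right).dvd_of_dvd_mul_left (hc2.dvd_of_dvd_mul_left h1))
  have hc0 : V.natDegree = 0 := by
    have h1 := natDegree_le_of_dvd hdvd hV
    rw [lV.natDegree_eq hVne] at h1
    have h2 : V.natDegree * 2 ≤ V.natDegree * d := Nat.mul_le_mul_left _ hd
    omega
  have hVh : hsub A B V.natDegree V = V := by rw [hc0]; exact hsub_C A B V hc0
  rw [hVh, hc0, pow_zero, mul_one] at heq
  have heq2 : hsub A B U.natDegree U * B ^ (2 * l) =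
      B ^ U.natDegree * ((wr A B) ^ l * U + E * V) := by
    apply mul_right_cancel₀ hV
    linear_combination heq
  have ha : U.natDegree ≤ 2 * l := by
    by_contra hcon
    push Not at hcon
    have e : B ^ U.natDegree = B ^ (2 * l) * (B * B ^ (U.natDegree - 2 * l - 1)) := by
      rw [← pow_succ', ← pow_add]; congr 1; omega
    have heq3 : hsub A B U.natDegree U =
        B * (B ^ (U.natDegree - 2 * l - 1) * ((wr A B) ^ l * U + E * V)) := by
      apply mul_right_cancel₀ (pow_ne_zero (2 * l) h.B0)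
      rw [heq2, e]; ring
    obtain ⟨S, hS⟩ := hsub_mod A B U.natDegree U
    have h1 : B ∣ C U.leadingCoeff * A ^ U.natDegree := by
      refine ⟨(B ^ (U.natDegree - 2 * l - 1) * ((wr A B) ^ l * U + E * V)) - S, ?_⟩
      rw [hS] at heq3
      rw [leadingCoeff]
      linear_combination heq3
    have h2 : B ∣ C U.leadingCoeff := (h.co.symm.pow_right).dvd_of_dvd_mul_right h1
    have h3 : IsUnit (C U.leadingCoeff) := by
      rw [isUnit_C, isUnit_iff_ne_zero]; exact leadingCoeff_ne_zero.mpr hU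
    exact h.notUnitB (isUnit_of_dvd_unit h2 h3)
  refine ⟨hc0, ha, ?_⟩
  apply mul_right_cancel₀ (pow_ne_zero U.natDegree h.B0)
  have e : B ^ (2 * l) = B ^ (2 * l - U.natDegree) * B ^ U.natDegree := by
    rw [← pow_add]; congr 1; omega
  rw [e] at heq2
  linear_combination heq2

end Pool.Agent.Helper36.S5
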