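import Pool.Agent.Helper36.S5.LemmaR

/-!
# Module S5 of Plan S: Lemma R (continued)
-/

set_option autoImplicit false

open Finset Polynomial

namespace Pool.Agent.Helper36.S5

variable {κ : Type*} [Field κ]

lemma wr_self (A : κ[X]) : wr A A = 0 := by rw [wr]; ring

lemma wr_sub_mul (A B : κ[X]) (z : κ) : wr (A - C z * B) B = wr A B := by
  rw [wr, wr, derivative_sub, derivative_C_mul]; ring

/-- homogenised substitution is multiplicative -/
lemma hsub_mul [Infinite κ] (A B : κ[X]) (hB : B ≠ 0) (p q : κ[X]) (m n : ℕ)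
    (hp : p.natDegree ≤ m) (hq : q.natDegree ≤ n) :
    hsub A B (m + n) (p * q) = hsub A B m p * hsub A B n q := by
  classical
  apply Polynomial.eq_of_infinite_eval_eq
  have hfin : {x : κ | B.eval x = 0}.Finite := by
    refine (B.roots.toFinset.finite_toSet).subset fun x hx => ?_
    rw [mem_coe, Multiset.mem_toFinset]
    exact (mem_roots hB).mpr hx
  refine (hfin.infinite_compl).mono fun x hx => ?_
  simp only [Set.mem_compl_iff, Set.mem_ofPred_eq] at hx
  have hy : (A.eval x / B.eval x) * B.eval x = A.eval x := by field_simp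
  simp only [Set.mem_ofPred_eq, eval_mul]
  rw [hsub_eval A B m p hp x _ hy, hsub_eval A B n q hq x _ hy,
    hsub_eval A B (m + n) (p * q) (natDegree_mul_le_of_le hp hq) x _ hy, eval_mul]
  ring

lemma hsub_pow [Infinite κ] (A B : κ[X]) (hB : B ≠ 0) (p : κ[X]) (m k : ℕ)
    (hp : p.natDegree ≤ m) : hsub A B (k * m) (p ^ k) = (hsub A B m p) ^ k := by
  induction k with
  | zero =>
    rw [pow_zero, pow_zero, zero_mul]
    rw [hsub_C A B 1 (by simp)]
  | succ k ih =>
    have e : (k + 1) * m = k * m + m := by ring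
    rw [e, pow_succ, hsub_mul A B hB (p ^ k) p (k * m) m (natDegree_pow_le_of_le k hp) hp, ih,
      pow_succ]

lemma hsub_linear (A B : κ[X]) (z : κ) : hsub A B 1 (X - C z) = A - C z * B := by
  rw [hsub]
  simp [sum_range_succ, coeff_X, coeff_C]
  ring

lemma dvd_derivative_absurd [CharZero κ] {B : κ[X]} (hB : 0 < B.natDegree)
    (h : B ∣ derivative B) : False := by
  have hB0 : B ≠ 0 := by rintro rfl; simp at hB
  have h0 : derivative B ≠ 0 := by
    intro h0
    have := Polynomial.derivative_eq_zero.mp h0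
    omega
  have h1 := natDegree_le_of_dvd h h0
  have h2 := natDegree_derivative_lt hB.ne'
  omega

/-- Case `α = β` (multiplier one) -/
lemma Spec.lemmaR_one [IsAlgClosed κ] [CharZero κ] {d : ℕ} {A B : κ[X]} {α : κ}
    (h : Spec d A B α α) {U : κ[X]} (hU : U ≠ 0) (l : ℕ) (hl : 1 ≤ l)
    (ha : U.natDegree ≤ 2 * l)
    (heq : hsub A B U.natDegree U * B ^ (2 * l - U.natDegree) = (wr A B) ^ l * U) : False := by
  classical
  have hd := h.hd
  set a := U.natDegree with ha'
  set u := U.leadingCoeff with hu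
  have hu0 : u ≠ 0 := leadingCoeff_ne_zero.mpr hU
  set p : κ[X] := X * B - A with hp
  have hp0 : p ≠ 0 := by
    intro h0
    obtain ⟨z, hz⟩ := h.exists_rootB
    have : A.eval z = 0 := by
      have h1 : A = X * B := by rw [← sub_eq_zero, ← neg_eq_zero, neg_sub]; exact h0
      rw [h1]; simp [hz]
    exact h.A_ne hz this
  obtain ⟨e, he⟩ : ∃ e, d = e + 1 := ⟨d - 1, by omega⟩
  have he1 : d - 1 = e := by omega
  have lB : Lead B e α := h.lB.cast he1 rfl
  have lA : Lead A (e + 1) α := h.lA.cast he rfl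
  have lXB : Lead (X * B) (e + 1) α := (Lead.X'.mul lB).cast (by ring) (by ring)
  have lp' : Lead p (e + 1) 0 := (lXB.sub lA).cast rfl (by ring)
  have hr : p.natDegree ≤ e := by
    by_contra hcon
    have h1 : p.natDegree = e + 1 := le_antisymm lp'.1 (by omega)
    have h2 : p.leadingCoeff = 0 := by rw [leadingCoeff, h1]; exact lp'.2
    exact hp0 (leadingCoeff_eq_zero.mp h2)
  set r := p.natDegree with hr'
  have lp : Lead p r p.leadingCoeff := Lead.of_natDegree p
  have hlp0 : p.leadingCoeff ≠ 0 := leadingCoeff_ne_zero.mpr hp0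
  -- the first geometric sum
  set S : κ[X] := ∑ i ∈ range (a + 1), C (U.coeff i) *
    (B ^ (2 * l - i) * ∑ j ∈ range i, (X * B) ^ j * A ^ (i - 1 - j)) with hS
  have hS1 : B ^ (2 * l) * U - hsub A B a U * B ^ (2 * l - a) = p * S := by
    have hU1 : B ^ (2 * l) * U = ∑ i ∈ range (a + 1), C (U.coeff i) *
        ((X * B) ^ i * B ^ (2 * l - i)) := by
      conv_lhs => rw [U.as_sum_range_C_mul_X_pow]
      rw [mul_sum]
      refine sum_congr rfl fun i hi => ?_
      have hi' : i ≤ a := Nat.lt_succ_iff.mp (mem_range.mp hi)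
      have : B ^ (2 * l) = B ^ i * B ^ (2 * l - i) := by rw [← pow_add]; congr 1; omega
      rw [this, mul_pow]; ring
    have hU2 : hsub A B a U * B ^ (2 * l - a) = ∑ i ∈ range (a + 1), C (U.coeff i) *
        (A ^ i * B ^ (2 * l - i)) := by
      rw [hsub, sum_mul]
      refine sum_congr rfl fun i hi => ?_
      have hi' : i ≤ a := Nat.lt_succ_iff.mp (mem_range.mp hi)
      have : B ^ (2 * l - i) = B ^ (a - i) * B ^ (2 * l - a) := by
        rw [← pow_add]; congr 1; omega
      rw [this]; ring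
    rw [hU1, hU2, ← sum_sub_distrib, hS, mul_sum]
    refine sum_congr rfl fun i _ => ?_
    have hg := (Commute.all (X * B) A).mul_geom_sum₂ i
    rw [hp]
    linear_combination (-(C (U.coeff i) * B ^ (2 * l - i))) * hg
  have lS : Lead (X * S) ((2 * l - 1) * e + a) (a * (u * α ^ (2 * l - 1))) := by
    have key : ∀ i ∈ range (a + 1), Lead (X * (C (U.coeff i) *
        (B ^ (2 * l - i) * ∑ j ∈ range i, (X * B) ^ j * A ^ (i - 1 - j))))
        ((2 * l - 1) * e + a) (if i = a then a * (u * α ^ (2 * l - 1)) else 0) := by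
      intro i hi
      have hi' : i ≤ a := Nat.lt_succ_iff.mp (mem_range.mp hi)
      rcases Nat.eq_zero_or_pos i with h0 | hpos
      · subst h0
        rw [range_zero, sum_empty, mul_zero, mul_zero, mul_zero]
        split_ifs with hh
        · rw [← hh]; simp [Lead]
        · simp [Lead]
      · have h1 : Lead (∑ j ∈ range i, (X * B) ^ j * A ^ (i - 1 - j)) ((i - 1) * (e + 1))
            (i * α ^ (i - 1)) := by
          have h2 : ∀ j ∈ range i, Lead ((X * B) ^ j * A ^ (i - 1 - j)) ((i - 1) * (e + 1))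
              (α ^ (i - 1)) := by
            intro j hj
            have hj' : j < i := mem_range.mp hj
            refine ((lXB.pow j).mul (lA.pow (i - 1 - j))).cast ?_ ?_
            · rw [← add_mul]; congr 1; omega
            · rw [← pow_add]; congr 1; omega
          refine (Lead.sum _ h2).cast rfl ?_
          rw [sum_const, card_range, nsmul_eq_mul]
        have h3 := (Lead.X'.mul (((lB.pow (2 * l - i)).mul h1).C_mul (U.coeff i)))
        have h4 : Lead (X * (C (U.coeff i) *
            (B ^ (2 * l - i) * ∑ j ∈ range i, (X * B) ^ j * A ^ (i - 1 - j))))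
            ((2 * l - 1) * e + i) (i * (U.coeff i * α ^ (2 * l - 1))) := by
          refine h3.cast ?_ ?_
          · obtain ⟨i', rfl⟩ : ∃ i', i = i' + 1 := ⟨i - 1, by omega⟩
            obtain ⟨l', hl'⟩ : ∃ l', 2 * l = i' + 1 + l' := ⟨2 * l - (i' + 1), by omega⟩
            have e1 : 2 * l - (i' + 1) = l' := by omega
            have e2 : 2 * l - 1 = i' + l' := by omega
            rw [e1, e2, Nat.add_sub_cancel]
            ring
          · have e3 : α ^ (2 * l - 1) = α ^ (2 * l - i) * α ^ (i - 1) := by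
              rw [← pow_add]; congr 1; omega
            rw [e3]; ring
        rcases hi'.lt_or_eq with hlt | heq'
        · rw [if_neg hlt.ne]
          exact h4.lt (by omega)
        · rw [if_pos heq']
          refine h4.cast (by rw [heq']) ?_
          rw [heq', hu, leadingCoeff]
    have h5 := Lead.sum _ key
    rw [sum_ite_eq' (range (a + 1)) a, if_pos (mem_range.mpr (by omega)), ← mul_sum] at h5
    exact h5
  -- the second geometric sum
  have hW : B ^ 2 - wr A B = wr p B := by
    rw [wr, wr, hp, derivative_sub, derivative_mul, derivative_X]; ring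
  set T : κ[X] := ∑ j ∈ range l, (B ^ 2) ^ j * (wr A B) ^ (l - 1 - j) with hT
  have hT1 : wr p B * T = (B ^ 2) ^ l - (wr A B) ^ l := by
    rw [← hW, hT]
    exact (Commute.all (B ^ 2) (wr A B)).mul_geom_sum₂ l
  have lW : Lead (wr A B) (2 * e) (α * α) := h.leadW.cast (by rw [he1]) rfl
  have lT : Lead T ((l - 1) * (2 * e)) (l * (α * α) ^ (l - 1)) := by
    have h2 : ∀ j ∈ range l, Lead ((B ^ 2) ^ j * (wr A B) ^ (l - 1 - j)) ((l - 1) * (2 * e))
        ((α * α) ^ (l - 1)) := by
      intro j hj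
      have hj' : j < l := mem_range.mp hj
      refine (((lB.pow 2).pow j).mul (lW.pow (l - 1 - j))).cast ?_ ?_
      · rw [← add_mul]; congr 1; omega
      · rw [← pow_two, ← pow_add]; congr 1; omega
    refine (Lead.sum _ h2).cast rfl ?_
    rw [sum_const, card_range, nsmul_eq_mul]
  have lwp := lead_wr lp lB
  -- comparison
  have hmain : p * (X * S) = (X * wr p B) * T * U := by
    have h1 : (B ^ 2) ^ l = B ^ (2 * l) := by rw [← pow_mul]
    rw [h1] at hT1
    linear_combination (-X) * hS1 - X * heq + (-(X * U)) * hT1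
  have L1 := lp.mul lS
  have L2 := (lwp.mul lT).mul (Lead.of_natDegree U)
  rw [← ha', ← hu, ← hmain] at L2
  have hdeg : r + e + (l - 1) * (2 * e) + a = r + ((2 * l - 1) * e + a) := by
    obtain ⟨l', rfl⟩ : ∃ l', l = l' + 1 := ⟨l - 1, by omega⟩
    rw [Nat.add_sub_cancel, show 2 * (l' + 1) - 1 = 2 * l' + 1 by omega]
    ring
  have hcmp := L1.unique (L2.cast hdeg rfl)
  have hα : (α * α) ^ (l - 1) * α = α ^ (2 * l - 1) := by
    rw [← pow_two, ← pow_mul, ← pow_succ]; congr 1; omega
  have hfin : (a : κ) = ((r : κ) - e) * l := by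
    have h1 : p.leadingCoeff * u * α ^ (2 * l - 1) * (a : κ) =
        p.leadingCoeff * u * α ^ (2 * l - 1) * (((r : κ) - e) * l) := by
      rw [← hα] at hcmp ⊢
      linear_combination hcmp
    exact mul_left_cancel₀ (mul_ne_zero (mul_ne_zero hlp0 hu0) (pow_ne_zero _ h.α0)) h1
  have hnat : a + (e - r) * l = 0 := by
    have h1 : ((a + (e - r) * l : ℕ) : κ) = 0 := by
      rw [Nat.cast_add, Nat.cast_mul, Nat.cast_sub hr, hfin]; ring
    exact_mod_cast h1
  have ha0 : a = 0 := by omega
  -- now `U` is constant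
  have h1 : hsub A B a U = U := by rw [ha0]; exact hsub_C A B U (by rw [← ha']; exact ha0)
  rw [h1, ha0, Nat.sub_zero] at heq
  have h2 : (B ^ 2) ^ l = (wr A B) ^ l := by
    rw [← pow_mul]
    exact mul_left_cancel₀ hU (by linear_combination heq)
  have h3 : B ^ 2 ∣ wr A B := (UniqueFactorizationMonoid.pow_dvd_pow_iff_dvd (by omega)).mp (dvd_of_eq h2)
  have h4 : B ∣ A * derivative B := by
    have h5 : B ∣ wr A B := (dvd_pow_self B two_ne_zero).trans h3
    have h6 : A * derivative B = derivative A * B - wr A B := by rw [wr]; ring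
    rw [h6]
    exact dvd_sub (dvd_mul_left _ _) h5
  have h5 : B ∣ derivative B := h.co.symm.dvd_of_dvd_mul_left h4
  refine dvd_derivative_absurd ?_ h5
  rw [h.lB.natDegree_eq h.β0]; omega

/-- Case: multiplier not a root of unity -/
lemma Spec.lemmaR_ne [IsAlgClosed κ] [CharZero κ] {d : ℕ} {A B : κ[X]} {α β : κ}
    (h : Spec d A B α β) (hsp : ∀ n : ℕ, 0 < n → α ^ n ≠ β ^ n) {U : κ[X]} (hU : U ≠ 0) (l : ℕ)
    (hl : 1 ≤ l) (ha : U.natDegree ≤ 2 * l)
    (heq : hsub A B U.natDegree U * B ^ (2 * l - U.natDegree) = (wr A B) ^ l * U) : False := by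
  classical
  have hd := h.hd
  set a := U.natDegree with ha'
  set u := U.leadingCoeff with hu
  have hu0 : u ≠ 0 := leadingCoeff_ne_zero.mpr hU
  have lU : Lead U a u := Lead.of_natDegree U
  -- `a = l`
  have hal : a = l := by
    have L1 := (lead_hsub A B h.lA h.lB (by omega) U lU le_rfl).mul (h.lB.pow (2 * l - a))
    have L2 := (h.leadW.pow l).mul lU
    rw [← heq] at L2
    have hdeg : a * d + (a - a) * (d - 1) + (2 * l - a) * (d - 1) = l * (2 * (d - 1)) + a := by
      obtain ⟨e, rfl⟩ : ∃ e, d = e + 1 := ⟨d - 1, by omega⟩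
      obtain ⟨s, hs⟩ : ∃ s, 2 * l = a + s := ⟨2 * l - a, by omega⟩
      have e1 : 2 * l - a = s := by omega
      rw [e1, Nat.sub_self, Nat.add_sub_cancel]
      have : l * (2 * e) = (2 * l) * e := by ring
      rw [this, hs]; ring
    have hcmp := (L1.cast hdeg rfl).unique L2
    rw [Nat.sub_self, pow_zero, mul_one] at hcmp
    have hcmp2 : α ^ a * β ^ (2 * l - a) = α ^ l * β ^ l := by
      apply mul_left_cancel₀ hu0
      rw [mul_pow] at hcmp
      linear_combination hcmp
    by_contra hne
    rcases lt_or_gt_of_ne hne with hlt | hgt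
    · have e1 : β ^ (2 * l - a) = β ^ (l - a) * β ^ l := by rw [← pow_add]; congr 1; omega
      have e2 : α ^ l = α ^ a * α ^ (l - a) := by rw [← pow_add]; congr 1; omega
      rw [e1, e2] at hcmp2
      have : α ^ (l - a) = β ^ (l - a) := by
        apply mul_left_cancel₀ (mul_ne_zero (pow_ne_zero a h.α0) (pow_ne_zero l h.β0))
        linear_combination -hcmp2
      exact hsp (l - a) (by omega) this
    · have e1 : β ^ l = β ^ (a - l) * β ^ (2 * l - a) := by rw [← pow_add]; congr 1; omega
      have e2 : α ^ a = α ^ l * α ^ (a - l) := by rw [← pow_add]; congr 1; omega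
      rw [e1, e2] at hcmp2
      have : α ^ (a - l) = β ^ (a - l) := by
        apply mul_left_cancel₀
          (mul_ne_zero (pow_ne_zero l h.α0) (pow_ne_zero (2 * l - a) h.β0))
        linear_combination hcmp2
      exact hsp (a - l) (by omega) this
  rw [hal, show 2 * l - l = l by omega] at heq
  -- a root of `B`
  obtain ⟨z, hz⟩ := h.exists_rootB
  obtain ⟨m, S, W₂, hBS, hS, hWr, hW₂⟩ := wr_order B A z hz h.B0 (h.A_ne hz)
  have hXz : (X - C z : κ[X]) ≠ 0 := X_sub_C_ne_zero z
  have hdvd : (X - C z) ^ l ∣ U := by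
    have h1 : (X - C z) ^ l * (hsub A B l U * S ^ l) = (-W₂) ^ l * U := by
      apply mul_left_cancel₀ (pow_ne_zero (m * l) hXz)
      have hB : B ^ l = (X - C z) ^ (m * l) * ((X - C z) ^ l * S ^ l) := by
        rw [hBS, mul_pow, ← pow_mul]
        have : (m + 1) * l = m * l + l := by ring
        rw [this, pow_add]; ring
      have hW : (wr A B) ^ l = (X - C z) ^ (m * l) * (-W₂) ^ l := by
        rw [wr_comm, hWr, pow_mul, ← mul_pow]; congr 1; ring
      rw [hB, hW] at heq
      linear_combination heq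
    have h2 : IsCoprime ((X - C z) ^ l) ((-W₂) ^ l) := by
      apply IsCoprime.pow
      apply isCoprime_of_no_root _ _ _ hXz
      intro x hx
      have hxz : x = z := by
        rw [eval_sub, eval_X, eval_C, sub_eq_zero] at hx; exact hx
      rw [hxz, eval_neg]
      exact neg_ne_zero.mpr hW₂
    exact h2.dvd_of_dvd_mul_left ⟨_, h1.symm⟩
  have hUeq : U = (X - C z) ^ l * C u := by
    obtain ⟨T, hT⟩ := hdvd
    have hT0 : T ≠ 0 := by rintro rfl; rw [mul_zero] at hT; exact hU hT
    have hmon : ((X - C z) ^ l : κ[X]).Monic := (monic_X_sub_C z).pow l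
    have h1 : T.natDegree = 0 := by
      have h2 := congrArg natDegree hT
      rw [hmon.natDegree_mul' hT0, (monic_X_sub_C z).natDegree_pow, natDegree_X_sub_C,
        ← ha', hal] at h2
      omega
    have h3 : T = C u := by
      rw [eq_C_of_natDegree_eq_zero h1]
      congr 1
      rw [hu, hT, leadingCoeff_mul, hmon.leadingCoeff, one_mul, leadingCoeff, h1]
    rw [← h3]; exact hT
  have hhs : hsub A B l U = (A - C z * B) ^ l * C u := by
    have h1 := hsub_mul A B h.B0 ((X - C z) ^ l) (C u) (l * 1) 0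
      (natDegree_pow_le_of_le l (natDegree_X_sub_C z).le) (by simp)
    rw [add_zero, mul_one, ← hUeq, hsub_C A B (C u) (by simp)] at h1
    have h2 := hsub_pow A B h.B0 (X - C z) 1 l (natDegree_X_sub_C z).le
    rw [mul_one, hsub_linear] at h2
    rw [h1, h2]
  -- a root of `A - z B`
  set A₁ : κ[X] := A - C z * B with hA₁
  have lA₁ : Lead A₁ d α := by
    have h1 : Lead (C z * B) d 0 := (h.lB.C_mul z).lt (by omega)
    exact (h.lA.sub h1).cast rfl (by ring)
  have hA₁0 : A₁ ≠ 0 := lA₁.ne_zero h.α0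
  obtain ⟨z', hz'⟩ : ∃ z', A₁.eval z' = 0 := by
    apply IsAlgClosed.exists_root
    rw [degree_eq_natDegree hA₁0, lA₁.natDegree_eq h.α0]
    exact_mod_cast (by omega : d ≠ 0)
  have hBz' : B.eval z' ≠ 0 := by
    intro hB
    have h1 : A.eval z' = 0 := by
      rw [hA₁, eval_sub, eval_mul, hB, mul_zero, sub_zero] at hz'; exact hz'
    exact h.A_ne hB h1
  have hzz : z' - z ≠ 0 := by
    intro h0
    apply hBz'
    rw [sub_eq_zero.mp h0]; exact hz
  obtain ⟨m', S', W₃, hAS, hS', hWr', hW₃⟩ := wr_order A₁ B z' hz' hA₁0 hBz'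
  rw [hA₁, wr_sub_mul] at hWr'
  rw [hhs] at heq
  have hXz' : (X - C z' : κ[X]) ≠ 0 := X_sub_C_ne_zero z'
  have h1 : (X - C z') ^ l * (S' ^ l * B ^ l) = W₃ ^ l * (X - C z) ^ l := by
    apply mul_left_cancel₀ (pow_ne_zero (m' * l) hXz')
    apply mul_right_cancel₀ (b := C u) (by rw [Ne, C_eq_zero]; exact hu0)
    have hA : A₁ ^ l = (X - C z') ^ (m' * l) * ((X - C z') ^ l * S' ^ l) := by
      rw [hAS, mul_pow, ← pow_mul]
      have : (m' + 1) * l = m' * l + l := by ring
      rw [this, pow_add]; ring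
    have hW : (wr A B) ^ l = (X - C z') ^ (m' * l) * W₃ ^ l := by
      rw [hWr', pow_mul, ← mul_pow]
    rw [hUeq, hW, hA] at heq
    linear_combination heq
  have h2 := congrArg (eval z') h1
  simp only [eval_mul, eval_pow, eval_sub, eval_X, eval_C, sub_self] at h2
  rw [zero_pow (by omega), zero_mul] at h2
  exact mul_ne_zero (pow_ne_zero l hW₃) (pow_ne_zero l hzz) h2.symm

/-- **Lemma R**, polynomial form -/
theorem Spec.lemmaR [IsAlgClosed κ] [CharZero κ] {d : ℕ} {A B : κ[X]} {α β : κ}
    (h : Spec d A B α β) {U : κ[X]} (hU : U ≠ 0) (l : ℕ)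
    (hl : 1 ≤ l) (ha : U.natDegree ≤ 2 * l)
    (heq : hsub A B U.natDegree U * B ^ (2 * l - U.natDegree) = (wr A B) ^ l * U) : False := by
  rcases h.sp with h1 | h1
  · subst h1
    exact h.lemmaR_one hU l hl ha heq
  · exact h.lemmaR_ne h1 hU l hl ha heq

end Pool.Agent.Helper36.S5
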