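import Pool.Agent.Helper36.S5.General

/-!
# Module S5 of Plan S: Lemmas R and O in a general coordinate
-/

set_option autoImplicit false
set_option linter.unusedSectionVars false

open Finset Polynomial

namespace Pool.Agent.Helper36.S5

variable {κ : Type*} [Field κ] {A B : κ[X]} {d : ℕ}

/-- a multiplier `β/α` is special -/
def Special (α β : κ) : Prop := β ≠ 0 ∧ (α = β ∨ ∀ n : ℕ, 0 < n → α ^ n ≠ β ^ n)

/-- the data of a special fixed point of `A/B` -/
def HasSpecial (A B : κ[X]) (d : ℕ) : Prop :=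
  (A.coeff d ≠ 0 ∧ B.coeff d = 0 ∧ Special (A.coeff d) (B.coeff (d - 1))) ∨
  ∃ q : κ, A.eval q = q * B.eval q ∧ B.eval q ≠ 0 ∧
    Special (B.eval q) ((derivative A).eval q - q * (derivative B).eval q)

/-- the transformed numerator and denominator -/
noncomputable def A₁ (q : κ) (d : ℕ) (B : κ[X]) : κ[X] := hsub (C q * X + 1) X d B

/-- the transformed numerator and denominator -/
noncomputable def B₁ (q : κ) (d : ℕ) (A B : κ[X]) : κ[X] :=
  hsub (C q * X + 1) X d (A - C q * B)

lemma hsub_add (M N : κ[X]) (n : ℕ) (p q : κ[X]) :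
    hsub M N n (p + q) = hsub M N n p + hsub M N n q := by
  rw [hsub, hsub, hsub, ← sum_add_distrib]
  refine sum_congr rfl fun i _ => ?_
  rw [coeff_add, C_add]; ring

lemma hsub_sub (M N : κ[X]) (n : ℕ) (p q : κ[X]) :
    hsub M N n (p - q) = hsub M N n p - hsub M N n q := by
  rw [hsub, hsub, hsub, ← sum_sub_distrib]
  refine sum_congr rfl fun i _ => ?_
  rw [coeff_sub, C_sub]; ring

lemma B₁_eq (q : κ) (d : ℕ) (A B : κ[X]) :
    B₁ q d A B = hsub (C q * X + 1) X d A - C q * A₁ q d B := by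
  rw [B₁, hsub_sub, hsub_C_mul, A₁]

/-- the transformed map has a special fixed point at infinity -/
lemma Rat.spec_mob [IsAlgClosed κ] [CharZero κ] (h : Rat A B d) (hd : 2 ≤ d) (q : κ)
    (hq : A.eval q = q * B.eval q) (hBq : B.eval q ≠ 0)
    (hsp : Special (B.eval q) ((derivative A).eval q - q * (derivative B).eval q)) :
    Spec d (A₁ q d B) (B₁ q d A B) (B.eval q)
      ((derivative A).eval q - q * (derivative B).eval q) := by
  have lA : Lead (A₁ q d B) d (B.eval q) := lead_hsub_mob q d B h.dB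
  have hP : (A - C q * B).natDegree ≤ d :=
    (natDegree_sub_le _ _).trans (max_le h.dA ((natDegree_C_mul_le _ _).trans h.dB))
  have hroot : (A - C q * B).eval q = 0 := by
    rw [eval_sub, eval_mul, eval_C, hq, sub_self]
  obtain ⟨P₂, hP₂⟩ := dvd_iff_isRoot.mpr hroot
  have hne : A - C q * B ≠ 0 := sub_ne_zero.mpr (h.not_const (by omega) q)
  have hP₂0 : P₂ ≠ 0 := by rintro rfl; rw [mul_zero] at hP₂; exact hne hP₂
  have hP₂d : P₂.natDegree ≤ d - 1 := by
    rw [hP₂, (monic_X_sub_C q).natDegree_mul' hP₂0, natDegree_X_sub_C] at hP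
    omega
  have hlin : hsub (C q * X + 1) X 1 (X - C q) = 1 := by rw [hsub_linear]; ring
  have hB₁ : B₁ q d A B = hsub (C q * X + 1) X (d - 1) P₂ := by
    rw [B₁, hP₂]
    have h1 := hsub_mul (C q * X + 1) X X_ne_zero (X - C q) P₂ 1 (d - 1)
      (natDegree_X_sub_C q).le hP₂d
    rw [show 1 + (d - 1) = d by omega, hlin, one_mul] at h1
    exact h1
  have hP₂q : P₂.eval q = (derivative A).eval q - q * (derivative B).eval q := by
    have h1 := congrArg (fun P => (derivative P).eval q) hP₂
    simpa using h1.symm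
  have lB : Lead (B₁ q d A B) (d - 1)
      ((derivative A).eval q - q * (derivative B).eval q) := by
    rw [hB₁, ← hP₂q]
    exact lead_hsub_mob q (d - 1) P₂ hP₂d
  refine ⟨hd, lA, lB, hBq, hsp.1, ?_, hsp.2⟩
  apply isCoprime_of_no_root _ _ _ (lA.ne_zero hBq)
  intro w hw hw'
  by_cases hw0 : w = 0
  · subst hw0
    have e1 : (A₁ q d B).eval 0 = B.coeff d := by
      rw [A₁, hsub_eval_of_root _ _ _ _ _ (by simp)]; simp
    have e2 : (B₁ q d A B).eval 0 = (A - C q * B).coeff d := by
      rw [B₁, hsub_eval_of_root _ _ _ _ _ (by simp)]; simp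
    rw [e1] at hw
    rw [e2, coeff_sub, coeff_C_mul, hw, mul_zero, sub_zero] at hw'
    rcases h.top with h1 | h1
    · exact h1 hw'
    · exact h1 hw
  · have hy : (q + 1 / w) * (X : κ[X]).eval w = (C q * X + 1 : κ[X]).eval w := by
      simp only [eval_X, eval_add, eval_mul, eval_C, eval_one]
      field_simp
    rw [A₁, hsub_eval _ _ d B h.dB w _ hy] at hw
    rw [B₁, hsub_eval _ _ d _ hP w _ hy] at hw'
    have hX : (X : κ[X]).eval w ≠ 0 := by rw [eval_X]; exact hw0
    have h1 := (mul_eq_zero.mp hw).resolve_left (pow_ne_zero _ hX)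
    have h2 := (mul_eq_zero.mp hw').resolve_left (pow_ne_zero _ hX)
    rw [eval_sub, eval_mul, eval_C, h1, mul_zero, sub_zero] at h2
    exact eval_ne_of_coprime h.cop h2 h1

/-- the substitution `X ↦ q + 1/X` -/
noncomputable def mob [IsAlgClosed κ] (q : κ) : FractionRing κ[X] →+* FractionRing κ[X] :=
  (ratMob q).phi le_rfl

lemma mob_io [IsAlgClosed κ] (q : κ) (P : κ[X]) (n : ℕ) (hP : P.natDegree ≤ n) :
    mob q (io κ P) = io κ (hsub (C q * X + 1) X n P) / io κ X ^ n := by
  rw [mob, Rat.phi_io, phi0_apply _ _ X_ne_zero n P hP]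
  have := io_ne (κ := κ) X_ne_zero
  field_simp

section Transform

variable [IsAlgClosed κ] [CharZero κ] (h : Rat A B d) (hd : 2 ≤ d) {q : κ} {α β : κ}
  (hs : Spec d (A₁ q d B) (B₁ q d A B) α β)

lemma io_X_ne : io κ X ≠ 0 := io_ne X_ne_zero

include h hd in
lemma gg_transform (hs : Spec d (A₁ q d B) (B₁ q d A B) α β) :
    gg (A₁ q d B) (B₁ q d A B) * io κ X ^ 2 =
      mob q (gg A B) * (io κ (A₁ q d B) / io κ (B₁ q d A B)) ^ 2 := by
  have hX := io_X_ne (κ := κ)
  have hA₁ := io_ne hs.A0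
  have hB₁ := io_ne hs.B0
  obtain ⟨e, rfl⟩ : ∃ e, d = e + 1 := ⟨d - 1, by omega⟩
  -- the Wronskian
  have hdA : (derivative A).natDegree ≤ e := (natDegree_derivative_le A).trans (by
    have := h.dA; omega)
  have hdB : (derivative B).natDegree ≤ e := (natDegree_derivative_le B).trans (by
    have := h.dB; omega)
  have hW : X * wr (A₁ q (e + 1) B) (B₁ q (e + 1) A B) =
      hsub (C q * X + 1) X (e + (e + 1)) (wr A B) := by
    have h1 := derivative_hsub_mob q e A
    have h2 := derivative_hsub_mob q e B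
    have h3 : hsub (C q * X + 1) X (e + (e + 1)) (wr A B) =
        hsub (C q * X + 1) X e (derivative A) * hsub (C q * X + 1) X (e + 1) B -
        hsub (C q * X + 1) X e (derivative B) * hsub (C q * X + 1) X (e + 1) A := by
      rw [wr, hsub_sub, hsub_mul _ _ X_ne_zero _ _ e (e + 1) hdA h.dB, mul_comm A,
        hsub_mul _ _ X_ne_zero _ _ e (e + 1) hdB h.dA]
    rw [h3, B₁_eq, wr, derivative_sub, derivative_C_mul, A₁]
    linear_combination (-(hsub (C q * X + 1) X (e + 1) B)) * h1 +
      (hsub (C q * X + 1) X (e + 1) A) * h2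
  have hWd : (wr A B).natDegree ≤ e + (e + 1) := by
    rw [wr]
    refine (natDegree_sub_le _ _).trans (max_le (natDegree_mul_le_of_le hdA h.dB) ?_)
    exact (natDegree_mul_le_of_le h.dA hdB).trans (by omega)
  have h4 : mob q (io κ (wr A B)) = io κ X * io κ (wr (A₁ q (e + 1) B) (B₁ q (e + 1) A B)) /
      io κ X ^ (e + (e + 1)) := by
    rw [mob_io q (wr A B) (e + (e + 1)) hWd, ← hW, map_mul]
  have h5 : mob q (io κ B) = io κ (A₁ q (e + 1) B) / io κ X ^ (e + 1) := by
    rw [mob_io q B (e + 1) h.dB, A₁]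
  rw [gg, gg, map_div₀, map_pow, h4, h5]
  have e1 : io κ X ^ (e + (e + 1)) = io κ X ^ e * (io κ X ^ e * io κ X) := by
    rw [← pow_succ, ← pow_add]
  rw [e1, pow_succ]
  field_simp
  ring

include h hd in
lemma phi_mob (hs : Spec d (A₁ q d B) (B₁ q d A B) α β) (hd1 : 1 ≤ d)
    (b : FractionRing κ[X]) : hs.phi (mob q b) = mob q (h.phi hd1 b) := by
  have hX := io_X_ne (κ := κ)
  have hA₁ := io_ne hs.A0
  have hB₁ := io_ne hs.B0
  suffices hcomp : (hs.phi.comp (mob q)) = (mob q).comp (h.phi hd1) by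
    have := congrArg (fun f => f b) hcomp
    simpa using this
  apply IsFractionRing.ringHom_ext (A := κ[X])
  · intro p
    have hpoly : ((hs.phi.comp (mob q)).comp (io κ)) =
        (((mob q).comp (h.phi hd1)).comp (io κ)) := by
      apply Polynomial.ringHom_ext
      · intro a
        have e1 : mob q (io κ (C a)) = io κ (C a) := by
          rw [mob_io q (C a) 0 (by simp), hsub_C _ _ _ (by simp), pow_zero, div_one]
        have e2 : hs.phi (io κ (C a)) = io κ (C a) := by
          rw [hs.phi_io, phi0, coe_eval₂RingHom, eval₂_C]; rfl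
        have e3 : h.phi hd1 (io κ (C a)) = io κ (C a) := by
          rw [h.phi_io, phi0, coe_eval₂RingHom, eval₂_C]; rfl
        simp only [RingHom.comp_apply]
        rw [e1, e2, e3, e1]
      · simp only [RingHom.comp_apply]
        have e1 : mob q (io κ X) = io κ (C q) + 1 / io κ X := by
          rw [mob, Rat.phi_io, phi0, coe_eval₂RingHom, eval₂_X, map_add, map_mul, map_one]
          field_simp
        have e2 : ∀ a, hs.phi (io κ (C a)) = io κ (C a) := by
          intro a
          rw [hs.phi_io, phi0, coe_eval₂RingHom, eval₂_C]; rfl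
        have e3 : hs.phi (io κ X) = io κ (A₁ q d B) / io κ (B₁ q d A B) := by
          rw [hs.phi_io, phi0, coe_eval₂RingHom, eval₂_X]
        have e4 : h.phi hd1 (io κ X) = io κ A / io κ B := by
          rw [h.phi_io, phi0, coe_eval₂RingHom, eval₂_X]
        have e5 : mob q (io κ A) = (io κ (B₁ q d A B) + io κ (C q) * io κ (A₁ q d B)) /
            io κ X ^ d := by
          rw [mob_io q A d h.dA, B₁_eq, map_sub, map_mul, A₁]
          congr 1; ring
        have e6 : mob q (io κ B) = io κ (A₁ q d B) / io κ X ^ d := by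
          rw [mob_io q B d h.dB, A₁]
        rw [e1, map_add, map_div₀, map_one, e2, e3, e4, map_div₀, e5, e6]
        field_simp
        ring
    have := congrArg (fun f => f p) hpoly
    simpa using this

end Transform

/-- **Lemma R** in a general coordinate -/
theorem Rat.lemmaR [IsAlgClosed κ] [CharZero κ] (h : Rat A B d) (hd : 2 ≤ d)
    (hsp : HasSpecial A B d) (hd1 : 1 ≤ d) (l : ℕ) (hl : 1 ≤ l)
    (b : FractionRing κ[X]) (heq : h.phi hd1 b = gg A B ^ l * b) : b = 0 := by
  rcases hsp with ⟨hA, hB, hs⟩ | ⟨q, hq, hBq, hs⟩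
  · have lB : Lead B (d - 1) (B.coeff (d - 1)) := by
      refine ⟨?_, rfl⟩
      by_contra hcon
      have h1 : B.natDegree = d := le_antisymm h.dB (by omega)
      have h2 : B.leadingCoeff = 0 := by rw [leadingCoeff, h1]; exact hB
      exact h.B0 hd1 (leadingCoeff_eq_zero.mp h2)
    have hspec : Spec d A B (A.coeff d) (B.coeff (d - 1)) :=
      ⟨hd, Lead.of_le h.dA, lB, hA, hs.1, h.cop, hs.2⟩
    exact hspec.lemmaRF l hl b heq
  · have hspec := h.spec_mob hd q hq hBq hs
    have hX := io_X_ne (κ := κ)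
    have h1 : hspec.phi (io κ X ^ (2 * l) * mob q b) =
        gg (A₁ q d B) (B₁ q d A B) ^ l * (io κ X ^ (2 * l) * mob q b) := by
      have e3 : hspec.phi (io κ X) = io κ (A₁ q d B) / io κ (B₁ q d A B) := by
        rw [hspec.phi_io, phi0, coe_eval₂RingHom, eval₂_X]
      rw [map_mul, map_pow, e3, phi_mob h hd hspec hd1, heq, map_mul, map_pow]
      have h2 := gg_transform h hd hspec
      rw [pow_mul, pow_mul, ← mul_assoc, ← mul_assoc, ← mul_pow, ← mul_pow, h2]
      congr 2
      ring
    have h2 := hspec.lemmaRF l hl _ h1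
    have h3 : mob q b = 0 := (mul_eq_zero.mp h2).resolve_left (pow_ne_zero _ hX)
    exact (map_eq_zero (mob q)).mp h3

/-- **Lemma O** in a general coordinate -/
theorem Rat.lemmaO [IsAlgClosed κ] [CharZero κ] (h : Rat A B d) (hd : 2 ≤ d)
    (hsp : HasSpecial A B d) (hd1 : 1 ≤ d) (b : FractionRing κ[X]) (E : κ[X])
    (hE : E.natDegree ≤ 2 * d)
    (heq : h.phi hd1 b = gg A B * b + io κ E / io κ B ^ 2) :
    ∃ p : κ[X], p.natDegree ≤ 2 ∧ b = io κ p ∧ hsub A B 2 p = wr A B * p + E := by
  have hB' := io_ne (h.B0 hd1)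
  -- it suffices that `b` is a polynomial of degree at most two
  have hsuff : ∀ p : κ[X], p.natDegree ≤ 2 → b = io κ p → hsub A B 2 p = wr A B * p + E := by
    intro p hp hb
    apply io_inj
    rw [phi0_apply A B (h.B0 hd1) 2 p hp, map_add, map_mul, ← h.phi_io hd1 p, ← hb, heq, gg]
    field_simp
  suffices hmain : ∃ p : κ[X], p.natDegree ≤ 2 ∧ b = io κ p by
    obtain ⟨p, hp1, hp2⟩ := hmain
    exact ⟨p, hp1, hp2, hsuff p hp1 hp2⟩
  rcases hsp with ⟨hA, hB, hs⟩ | ⟨q, hq, hBq, hs⟩
  · have lB : Lead B (d - 1) (B.coeff (d - 1)) := by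
      refine ⟨?_, rfl⟩
      by_contra hcon
      have h1 : B.natDegree = d := le_antisymm h.dB (by omega)
      have h2 : B.leadingCoeff = 0 := by rw [leadingCoeff, h1]; exact hB
      exact h.B0 hd1 (leadingCoeff_eq_zero.mp h2)
    have hspec : Spec d A B (A.coeff d) (B.coeff (d - 1)) :=
      ⟨hd, Lead.of_le h.dA, lB, hA, hs.1, h.cop, hs.2⟩
    obtain ⟨p, hp1, hp2, _⟩ := hspec.lemmaO b E heq
    exact ⟨p, hp1, hp2⟩
  · have hspec := h.spec_mob hd q hq hBq hs
    have hX := io_X_ne (κ := κ)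
    have hA₁ := io_ne hspec.A0
    have hB₁ := io_ne hspec.B0
    set E₁ : κ[X] := hsub (C q * X + 1) X (2 * d) E with hE₁
    have h1 : hspec.phi (io κ X ^ 2 * mob q b) =
        gg (A₁ q d B) (B₁ q d A B) * (io κ X ^ 2 * mob q b) +
          io κ E₁ / io κ (B₁ q d A B) ^ 2 := by
      have e3 : hspec.phi (io κ X) = io κ (A₁ q d B) / io κ (B₁ q d A B) := by
        rw [hspec.phi_io, phi0, coe_eval₂RingHom, eval₂_X]
      have e4 : mob q (io κ E) = io κ E₁ / io κ X ^ (2 * d) := mob_io q E (2 * d) hE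
      have e6 : mob q (io κ B) = io κ (A₁ q d B) / io κ X ^ d := by
        rw [mob_io q B d h.dB, A₁]
      rw [map_mul, map_pow, e3, phi_mob h hd hspec hd1, heq, map_add, map_mul, map_div₀,
        map_pow, e4, e6]
      have h2 := gg_transform h hd hspec
      rw [← mul_assoc, h2, mul_add]
      congr 1
      · ring
      · rw [div_pow, div_pow, ← pow_mul, mul_comm d 2]
        field_simp
    obtain ⟨p₁, hp1, hp2, _⟩ := hspec.lemmaO _ E₁ h1
    refine ⟨hsub 1 (X - C q) 2 p₁, ?_, ?_⟩
    · exact natDegree_sum_le_of_forall_le _ _ fun i _ => by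
        refine (natDegree_C_mul_le _ _).trans ?_
        rw [one_pow, one_mul]
        exact (natDegree_pow_le_of_le _ (natDegree_X_sub_C q).le).trans (by omega)
    · apply (mob q).injective
      have e1 : mob q (io κ (X - C q)) = 1 / io κ X := by
        rw [mob_io q (X - C q) 1 (natDegree_X_sub_C q).le, hsub_linear, pow_one]
        congr 1
        rw [show (C q * X + 1 - C q * X : κ[X]) = 1 by ring, map_one]
      have e2 : ∀ a : κ, mob q (io κ (C a)) = io κ (C a) := by
        intro a
        rw [mob_io q (C a) 0 (by simp), hsub_C _ _ _ (by simp), pow_zero, div_one]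
      have e3 : mob q (io κ (hsub 1 (X - C q) 2 p₁)) = io κ p₁ / io κ X ^ 2 := by
        rw [hsub, map_sum, map_sum]
        simp only [map_mul, map_pow, e1, e2, one_pow, one_mul]
        have h3 : io κ p₁ = ∑ i ∈ range (2 + 1), io κ (C (p₁.coeff i)) * io κ X ^ i := by
          conv_lhs => rw [p₁.as_sum_range_C_mul_X_pow' (lt_of_le_of_lt hp1 (Nat.lt_succ_self 2))]
          rw [map_sum]
          simp only [map_mul, map_pow]
        rw [h3, sum_div]
        refine sum_congr rfl fun i hi => ?_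
        have hi' : i ≤ 2 := Nat.lt_succ_iff.mp (mem_range.mp hi)
        have e4 : io κ X ^ 2 = io κ X ^ i * io κ X ^ (2 - i) := by
          rw [← pow_add]; congr 1; omega
        rw [e4, div_pow, one_pow]
        field_simp
      rw [e3, ← hp2]
      field_simp

end Pool.Agent.Helper36.S5
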