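import Pool.Agent.Helper36.S5.LemmaR2

/-!
# Module S5 of Plan S: the rigid case of the descent, Lemmas R and O in the function field
-/

set_option autoImplicit false

open Finset Polynomial

namespace Pool.Agent.Helper36.S5

section Abstract

variable {F : Type*} [Field F]

lemma lead_linear (g G : F) : Lead (C g * X + C G) 1 g := by
  have h1 : Lead (C g * X) 1 g := (Lead.X'.C_mul g).cast rfl (by ring)
  have h2 : Lead (C G : F[X]) 1 0 := (Lead.C' G).lt one_pos
  exact (h1.add h2).cast rfl (by ring)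

lemma coeff_linear_pow (g G : F) (k : ℕ) :
    ((C g * X + C G) ^ (k + 1)).coeff k = (k + 1) * g ^ k * G := by
  induction k with
  | zero => simp
  | succ k ih =>
    rw [pow_succ, mul_add, coeff_add, mul_comm (C g) X, ← mul_assoc, coeff_mul_C, coeff_mul_C,
      mul_comm (_ ^ _) X, coeff_X_mul]
    have h1 : ((X * C g + C G) ^ (k + 1)).coeff k = (k + 1) * g ^ k * G := by
      rw [mul_comm X (C g)]; exact ih
    have h2 : ((X * C g + C G) ^ (k + 1)).coeff (k + 1) = g ^ (k + 1) := by
      rw [mul_comm X (C g)]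
      have := ((lead_linear g G).pow (k + 1)).2
      rwa [mul_one] at this
    rw [h1, h2]
    push_cast
    ring

lemma coeff_comp_linear (g G : F) (k : ℕ) (P : F[X]) (hP : P.natDegree ≤ k + 1) :
    (P.comp (C g * X + C G)).coeff k = P.coeff (k + 1) * ((k + 1) * g ^ k * G) +
      P.coeff k * g ^ k := by
  rw [comp, eval₂_eq_sum_range' C (lt_of_le_of_lt hP (Nat.lt_succ_self _)), finsetSum_coeff,
    sum_range_succ, sum_range_succ, sum_eq_zero, zero_add, coeff_C_mul, coeff_C_mul,
    coeff_linear_pow, add_comm]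
  · congr 1
    have := ((lead_linear g G).pow k).2
    rw [mul_one] at this
    rw [this]
  · intro i hi
    rw [coeff_C_mul]
    have h1 : Lead ((C g * X + C G) ^ i) k 0 :=
      ((lead_linear g G).pow i).lt (by rw [mul_one]; exact mem_range.mp hi)
    rw [h1.2, mul_zero]

/-- the rigid case -/
theorem rigid (φ : F →+* F) (g G : F) (hg : g ≠ 0) (e : ℕ) (he : 1 ≤ e) (heF : (e : F) ≠ 0)
    (M : F[X]) (hM : M.Monic) (hdeg : M.natDegree = e)
    (h : (M.map φ).comp (C g * X + C G) = C (g ^ e) * M)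
    (HR : ∀ l : ℕ, 1 ≤ l → ∀ b : F, φ b = g ^ l * b → b = 0) :
    ∃ ub : F, φ ub = g * ub + G ∧ M = (X - C ub) ^ e := by
  obtain ⟨k, rfl⟩ : ∃ k, e = k + 1 := ⟨e - 1, by omega⟩
  set ub : F := -(M.coeff k / ((k + 1 : ℕ) : F)) with hub
  have hlead : M.coeff (k + 1) = 1 := by rw [← hdeg]; exact hM
  have h1 : φ ub = g * ub + G := by
    have h2 := congrArg (fun P => P.coeff k) h
    rw [coeff_comp_linear g G k (M.map φ) (by rw [natDegree_map, hdeg]), coeff_map, coeff_map,
      hlead, map_one, one_mul, coeff_C_mul] at h2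
    have h3 : φ (M.coeff k) = g * M.coeff k - ((k + 1 : ℕ) : F) * G := by
      apply mul_right_cancel₀ (pow_ne_zero k hg)
      push_cast
      rw [pow_succ] at h2
      linear_combination h2
    rw [hub, map_neg, map_div₀, map_natCast, h3]
    field_simp
    ring
  refine ⟨ub, h1, ?_⟩
  set N : F[X] := M.comp (X + C ub) with hN
  have hNlead : Lead N (k + 1) 1 := by
    have hm : N.Monic := by
      rw [hN]; exact hM.comp_X_add_C ub
    have hnd : N.natDegree = k + 1 := by
      rw [hN, natDegree_comp, natDegree_X_add_C, mul_one, hdeg]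
    exact ⟨hnd.le, by rw [← hnd]; exact hm⟩
  have h4 : (N.map φ).comp (C g * X) = C (g ^ (k + 1)) * N := by
    have e1 : N.map φ = (M.map φ).comp (X + C (φ ub)) := by
      rw [hN, Polynomial.map_comp, Polynomial.map_add, map_X, map_C]
    rw [e1, comp_assoc, add_comp, X_comp, C_comp, h1]
    have e2 : (C g * X + C (g * ub + G) : F[X]) = (C g * X + C G).comp (X + C ub) := by
      simp only [add_comp, mul_comp, C_comp, X_comp, map_add, map_mul]
      ring
    rw [e2, ← comp_assoc, h, mul_comp, C_comp]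
  have h5 : ∀ i, i < k + 1 → N.coeff i = 0 := by
    intro i hi
    have h6 := congrArg (fun P => P.coeff i) h4
    rw [comp_C_mul_X_coeff, coeff_map, coeff_C_mul] at h6
    apply HR (k + 1 - i) (by omega)
    apply mul_right_cancel₀ (pow_ne_zero i hg)
    have e3 : g ^ (k + 1) = g ^ (k + 1 - i) * g ^ i := by rw [← pow_add]; congr 1; omega
    rw [e3] at h6
    linear_combination h6
  have h7 : N = X ^ (k + 1) := by
    ext i
    rw [coeff_X_pow]
    split_ifs with hi
    · rw [hi]; exact hNlead.2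
    · rcases lt_or_gt_of_ne hi with hlt | hgt
      · exact h5 i hlt
      · exact coeff_eq_zero_of_natDegree_lt (hNlead.1.trans_lt hgt)
  have h8 : M = N.comp (X - C ub) := by
    rw [hN, comp_assoc]
    simp
  rw [h8, h7, pow_comp, X_comp]

end Abstract

section FF

variable {κ : Type*} [Field κ]

/-- the inclusion of polynomials in rational functions -/
noncomputable abbrev io (κ : Type*) [Field κ] : κ[X] →+* FractionRing κ[X] :=
  algebraMap κ[X] (FractionRing κ[X])

lemma io_inj : Function.Injective (io κ) := IsFractionRing.injective κ[X] (FractionRing κ[X])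

lemma io_ne {p : κ[X]} (hp : p ≠ 0) : io κ p ≠ 0 := by
  intro h
  apply hp
  apply io_inj
  rw [h, map_zero]

/-- substitution of `A/B` -/
noncomputable def phi0 (A B : κ[X]) : κ[X] →+* FractionRing κ[X] :=
  eval₂RingHom ((io κ).comp C) (io κ A / io κ B)

lemma phi0_apply (A B : κ[X]) (hB : B ≠ 0) (n : ℕ) (q : κ[X]) (hq : q.natDegree ≤ n) :
    io κ (hsub A B n q) = io κ B ^ n * phi0 A B q := by
  have hB' := io_ne hB
  rw [phi0, coe_eval₂RingHom, eval₂_eq_sum_range' _ (lt_of_le_of_lt hq (Nat.lt_succ_self _)),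
    hsub, map_sum, mul_sum]
  refine sum_congr rfl fun i hi => ?_
  have hi' : i ≤ n := Nat.lt_succ_iff.mp (mem_range.mp hi)
  rw [map_mul, map_mul, map_pow, map_pow, RingHom.comp_apply, div_pow]
  have : io κ B ^ n = io κ B ^ i * io κ B ^ (n - i) := by rw [← pow_add]; congr 1; omega
  rw [this]
  field_simp

variable {d : ℕ} {A B : κ[X]} {α β : κ}

lemma Spec.phi0_inj (h : Spec d A B α β) : Function.Injective (phi0 A B) := by
  rw [injective_iff_map_eq_zero]
  intro q hq
  by_contra hq0
  have h1 := phi0_apply A B h.B0 q.natDegree q le_rfl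
  rw [hq, mul_zero] at h1
  have hd := h.hd
  have h2 := lead_hsub A B h.lA h.lB (by omega) q (Lead.of_natDegree q) le_rfl
  rw [Nat.sub_self, pow_zero, mul_one] at h2
  exact io_ne (h2.ne_zero (mul_ne_zero (leadingCoeff_ne_zero.mpr hq0)
    (pow_ne_zero _ h.α0))) h1

/-- substitution of `f = A/B` in rational functions -/
noncomputable def Spec.phi (h : Spec d A B α β) : FractionRing κ[X] →+* FractionRing κ[X] :=
  IsFractionRing.lift h.phi0_inj

lemma Spec.phi_io (h : Spec d A B α β) (q : κ[X]) : h.phi (io κ q) = phi0 A B q :=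
  IsFractionRing.lift_algebraMap h.phi0_inj q

lemma exists_frac (b : FractionRing κ[X]) (hb : b ≠ 0) : ∃ U V : κ[X], U ≠ 0 ∧ V ≠ 0 ∧
    IsCoprime U V ∧ b = io κ U / io κ V := by
  obtain ⟨U, V, hrel, hUV⟩ := IsFractionRing.exists_reduced_fraction (A := κ[X]) b
  have hV : (V : κ[X]) ≠ 0 := nonZeroDivisors.ne_zero V.2
  have e : b = io κ U / io κ (V : κ[X]) := by
    rw [← hUV, IsFractionRing.mk'_eq_div]
  refine ⟨U, V, ?_, hV, hrel.isCoprime, e⟩
  rintro rfl
  apply hb
  rw [e, map_zero, zero_div]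

/-- the multiplier -/
noncomputable def gg (A B : κ[X]) : FractionRing κ[X] := io κ (wr A B) / io κ B ^ 2

lemma Spec.gg_ne (h : Spec d A B α β) : gg A B ≠ 0 :=
  div_ne_zero (io_ne h.W0) (pow_ne_zero _ (io_ne h.B0))

lemma Spec.denomF [IsAlgClosed κ] (h : Spec d A B α β) (b : FractionRing κ[X]) (hb : b ≠ 0)
    (l : ℕ) (E : κ[X])
    (heq : h.phi b = gg A B ^ l * b + io κ E / io κ B ^ (2 * l)) :
    ∃ (U : κ[X]) (v : κ), v ≠ 0 ∧ U ≠ 0 ∧ b = io κ U / io κ (C v) ∧ U.natDegree ≤ 2 * l ∧
      hsub A B U.natDegree U * B ^ (2 * l - U.natDegree) = (wr A B) ^ l * U + E * C v := by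
  obtain ⟨U, V, hU, hV, hco, hb'⟩ := exists_frac b hb
  have hB' := io_ne h.B0
  have hU' := io_ne hU
  have hV' := io_ne hV
  have hphiV : phi0 A B V ≠ 0 := by
    intro h0
    apply hV
    apply h.phi0_inj
    rw [h0, map_zero]
  have heq' : hsub A B U.natDegree U * B ^ V.natDegree * V * B ^ (2 * l) =
      (wr A B) ^ l * U * hsub A B V.natDegree V * B ^ U.natDegree +
        E * hsub A B V.natDegree V * V * B ^ U.natDegree := by
    apply io_inj
    simp only [map_add, map_mul, map_pow]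
    rw [phi0_apply A B h.B0 _ U le_rfl, phi0_apply A B h.B0 _ V le_rfl]
    rw [hb', map_div₀, h.phi_io, h.phi_io, gg, div_pow, ← pow_mul] at heq
    have h2 : phi0 A B U = (io κ (wr A B) ^ l / io κ B ^ (2 * l) * (io κ U / io κ V) +
        io κ E / io κ B ^ (2 * l)) * phi0 A B V := by
      rw [← heq]; field_simp
    rw [h2]
    field_simp
  obtain ⟨h1, h2, h3⟩ := h.denom hco hU hV l heq'
  refine ⟨U, V.coeff 0, ?_, hU, ?_, h2, ?_⟩
  · intro h0
    apply hV
    rw [eq_C_of_natDegree_eq_zero h1, h0, C_0]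
  · rw [← eq_C_of_natDegree_eq_zero h1]; exact hb'
  · rw [← eq_C_of_natDegree_eq_zero h1]; exact h3

/-- **Lemma R** -/
theorem Spec.lemmaRF [IsAlgClosed κ] [CharZero κ] (h : Spec d A B α β) (l : ℕ) (hl : 1 ≤ l)
    (b : FractionRing κ[X]) (heq : h.phi b = gg A B ^ l * b) : b = 0 := by
  by_contra hb
  obtain ⟨U, v, _, hU, _, h2, h3⟩ := h.denomF b hb l 0 (by
    rw [map_zero, zero_div, add_zero]; exact heq)
  rw [zero_mul, add_zero] at h3
  exact h.lemmaR hU l hl h2 h3

lemma hsub_C_mul (A B : κ[X]) (n : ℕ) (c : κ) (q : κ[X]) :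
    hsub A B n (C c * q) = C c * hsub A B n q := by
  rw [hsub, hsub, mul_sum]
  refine sum_congr rfl fun i _ => ?_
  rw [coeff_C_mul, C_mul]
  ring

/-- **Lemma O** -/
theorem Spec.lemmaO [IsAlgClosed κ] (h : Spec d A B α β)
    (b : FractionRing κ[X]) (E : κ[X])
    (heq : h.phi b = gg A B * b + io κ E / io κ B ^ 2) :
    ∃ p : κ[X], p.natDegree ≤ 2 ∧ b = io κ p ∧ hsub A B 2 p = wr A B * p + E := by
  by_cases hb : b = 0
  · subst hb
    rw [map_zero, mul_zero, zero_add] at heq
    have h1 : io κ E = 0 := by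
      rcases div_eq_zero_iff.mp heq.symm with h1 | h1
      · exact h1
      · exact absurd h1 (pow_ne_zero _ (io_ne h.B0))
    have h2 : E = 0 := by apply io_inj; rw [h1, map_zero]
    refine ⟨0, by simp, by simp, ?_⟩
    rw [h2, hsub]; simp
  · obtain ⟨U, v, hv, hU, hb', h2, h3⟩ := h.denomF b hb 1 E (by
      rw [pow_one]; exact heq)
    rw [pow_one, mul_one] at h3
    rw [mul_one] at h2
    refine ⟨C v⁻¹ * U, (natDegree_C_mul_le _ _).trans h2, ?_, ?_⟩
    · rw [hb', map_mul]
      have h4 : io κ (C v) ≠ 0 := io_ne (by rw [Ne, C_eq_zero]; exact hv)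
      have h5 : io κ (C v⁻¹) * io κ (C v) = 1 := by
        rw [← map_mul, ← C_mul, inv_mul_cancel₀ hv, C_1, map_one]
      rw [div_eq_iff h4]
      linear_combination (-(io κ U)) * h5
    · rw [hsub_C_mul, hsub_pad A B U.natDegree 2 U le_rfl h2, h3]
      have h5 : (C v⁻¹ * C v : κ[X]) = 1 := by rw [← C_mul, inv_mul_cancel₀ hv, C_1]
      linear_combination E * h5

end FF

end Pool.Agent.Helper36.S5
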